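import Pool.Agent.Helper62.LCY.N2
import Pool.Agent.Helper51.LCY.P4
import Pool.Agent.Helper82.LCY.Beta
import Pool.Agent.Helper48.LCY.Top

/-!
Surfaces obtained from the projective plane by blowing up (infinitely near) points, their curves,
classes of curves, and the state of the induction for MP_f7e214_ag.

A point is a local ring `R : Subalgebra ℂ L` (always `R = P.loc` for a pair of coordinates `P`,
see `Coord.loc` in `Helper62/LCY/N2.lean`);
a surface is the set of its points.
-/

open Polynomial

namespace LCY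

noncomputable section

variable {L : Type} [Field L] [Algebra ℂ L]

/-- The least total degree of the monomials of a polynomial (the order at the origin). -/
def ordn (f : ℂ[X][X]) : ℕ := sInf {n | ∃ e : ℕ × ℕ, cf f e ≠ 0 ∧ e.1 + e.2 = n}

/-- The total degree. -/
def tdeg (f : ℂ[X][X]) : ℕ := (bs f).sup fun e => e.1 + e.2

/-- `v` is the order valuation of the point `R` (the exceptional curve of its blow-up). -/
def IsOrd (R : Subalgebra ℂ L) (v : DVal L) : Prop :=
  ∃ P : Coord L, P.loc = R ∧ ∀ f : ℂ[X][X], f ≠ 0 → v.v (ev P.x P.y f) = ordn f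

/-- `v` is the valuation of the irreducible polynomial `g` in the coordinates `P`. -/
def IsAdic (P : Coord L) (g : ℂ[X][X]) (v : DVal L) : Prop :=
  Irreducible g ∧ ∀ (n : ℕ) (f : ℂ[X][X]), ¬ g ∣ f → v.v (ev P.x P.y (g ^ n * f)) = n

/-- `v` is the valuation of the line at infinity of the plane with affine coordinates `S`. -/
def IsInf (S : Coord L) (v : DVal L) : Prop :=
  ∀ f : ℂ[X][X], f ≠ 0 → v.v (ev S.x S.y f) = - (tdeg f : ℤ)

/-- The curve `v` passes through the point `R`: `v` is the valuation of a prime of height one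
of `R`. -/
def Through (R : Subalgebra ℂ L) (v : DVal L) : Prop :=
  (∀ z ∈ R, v.Int z) ∧ ∃ z ∈ R, z⁻¹ ∉ R ∧ z ≠ 0 ∧ v.v z = 0

/-- The valuation `v` has its centre at the point `R`. -/
def Centred (R : Subalgebra ℂ L) (v : DVal L) : Prop :=
  (∀ z ∈ R, v.Int z) ∧ ∀ z ∈ R, z ≠ 0 → z⁻¹ ∉ R → 0 < v.v z

/-- `R'` is a point of the exceptional curve of the blow-up of `R`. -/
def Next (R R' : Subalgebra ℂ L) : Prop :=
  ∃ P Q : Coord L, P.loc = R ∧ Q.loc = R' ∧ Q.x = P.x ∧ Q.y = P.y / P.x

/-- Blowing up the point `R` of the surface `X`. -/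
def blow (X : Set (Subalgebra ℂ L)) (R : Subalgebra ℂ L) : Set (Subalgebra ℂ L) :=
  (X \ {R}) ∪ {R' | Next R R'}

/-- The linear form with coefficients `a` in `1, x, y`. -/
def lin (S : Coord L) (a : Fin 3 → ℂ) : L :=
  algebraMap ℂ L (a 0) + algebraMap ℂ L (a 1) * S.x + algebraMap ℂ L (a 2) * S.y

/-- The points of the projective plane with affine coordinates `S`. -/
def plane (S : Coord L) : Set (Subalgebra ℂ L) :=
  {R | ∃ (A : Matrix (Fin 3) (Fin 3) ℂ) (Q : Coord L), A.det ≠ 0 ∧ Q.loc = R ∧
    Q.x = lin S (A 1) / lin S (A 0) ∧ Q.y = lin S (A 2) / lin S (A 0)}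

/-- The surface obtained from the plane by blowing up the first `j` of the points `R`. -/
def surf (S : Coord L) {k : ℕ} (R : Fin k → Subalgebra ℂ L) : ℕ → Set (Subalgebra ℂ L)
  | 0 => plane S
  | j + 1 => if h : j < k then blow (surf S R j) (R ⟨j, h⟩) else surf S R j

/-- A plane (with affine coordinates `S`) and `k` points `R`, each of them a point of the
blow-up of the plane at the preceding ones. -/
structure PStr (L : Type) [Field L] [Algebra ℂ L] (k : ℕ) where
  /-- affine coordinates of the plane -/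
  S : Coord L
  /-- the points blown up -/
  R : Fin k → Subalgebra ℂ L
  valid : ∀ i : Fin k, R i ∈ surf S R i

/-- The surface: the set of its points. -/
def PStr.X {k : ℕ} (T : PStr L k) : Set (Subalgebra ℂ L) := surf T.S T.R k

/-- `v` is (the valuation of) a curve of the surface. -/
def PStr.Cur {k : ℕ} (T : PStr L k) (v : DVal L) : Prop := ∃ R ∈ T.X, Through R v

open Classical in
/-- The multiplicity at the point `R` of (the transform of) the curve `v`; it is `-1` for the
exceptional curve of `R` itself, and `0` if `v` is not a curve through `R`. -/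
def mul (R : Subalgebra ℂ L) (v : DVal L) : ℤ :=
  if IsOrd R v then -1
  else if Through R v then
    ((sInf {n : ℕ | ∃ (P : Coord L) (g : ℂ[X][X]), P.loc = R ∧ IsAdic P g v ∧ ordn g = n} : ℕ) : ℤ)
  else 0

open Classical in
/-- The degree of the plane curve `v` (and `0` if `v` is not a curve of the plane). -/
def deg (S : Coord L) (v : DVal L) : ℤ :=
  if IsInf S v then 1
  else ((sInf {n : ℕ | ∃ g : ℂ[X][X], IsAdic S g v ∧ tdeg g = n} : ℕ) : ℤ)

open Pool.Agent.Helper82.LCY

/-- The class `d H - ∑ m_i e_i` of a curve of the surface. -/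
def PStr.cl {k : ℕ} (T : PStr L k) (v : DVal L) : Cl ℤ (Fin k) :=
  (deg T.S v, fun i => mul (T.R i) v)

/-- The class `f_j`: `H`, `H - e_1`, `2 H - e_1 - e_2`, `3 H - e_1 - ... - e_j` for `j ≥ 3`. -/
def ff (k j : ℕ) : Cl ℤ (Fin k) :=
  (if j ≤ 1 then 1 else if j = 2 then 2 else 3, fun i => if (i : ℕ) < j then 1 else 0)

theorem surf_congr (S : Coord L) {k k' : ℕ} (R : Fin k → Subalgebra ℂ L)
    (R' : Fin k' → Subalgebra ℂ L) (j : ℕ) (hj : j ≤ k) (hj' : j ≤ k')
    (h : ∀ (i : ℕ) (h1 : i < k) (h2 : i < k'), i < j → R ⟨i, h1⟩ = R' ⟨i, h2⟩) :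
    surf S R j = surf S R' j := by
  induction j with
  | zero => rfl
  | succ j ih =>
    have h1 : j < k := hj
    have h2 : j < k' := hj'
    simp only [surf, dif_pos h1, dif_pos h2]
    rw [ih h1.le h2.le fun i a b hi => h i a b (hi.trans (Nat.lt_succ_self j)),
      h j h1 h2 (Nat.lt_succ_self j)]

/-- The structure consisting of the first `j` points. -/
def PStr.trunc {k : ℕ} (T : PStr L k) (j : ℕ) (h : j ≤ k) : PStr L j where
  S := T.S
  R := fun i => T.R (Fin.castLE h i)
  valid := by
    intro i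
    have h1 := T.valid (Fin.castLE h i)
    rw [Fin.val_castLE] at h1
    rw [surf_congr T.S (fun i => T.R (Fin.castLE h i)) T.R i i.2.le (i.2.le.trans h)]
    · exact h1
    · intro m h2 h3 _
      rfl

/-- The class is dominant: `m_1 ≥ ... ≥ m_k ≥ 0`, `b ≥ m_1 + m_2 + m_3` (missing
multiplicities are read as `0`). -/
def Dominant {k : ℕ} (B : Cl ℤ (Fin k)) : Prop :=
  Antitone B.2 ∧ (∀ i, 0 ≤ B.2 i) ∧ ∑ i : Fin k, (if (i : ℕ) < 3 then B.2 i else 0) ≤ B.1

/-- The state of the induction: a blow-up of the plane at `k ≤ 8` points on which the 2-form has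
only simple poles (and no zeros), with nef anticanonical class, such that all contracted curves
outside the divisor of poles have intersection number `0` with the canonical class, and such that
the linear system is numerically a multiple of the anticanonical class. -/
structure State {N : ℕ} (ω : Bracket L) (x : Fin (N + 1) → L) {k : ℕ} (T : PStr L k) : Prop where
  le : k ≤ 8
  wt : ∀ v, T.Cur v → ∀ n, ω.Wt v n → n = 0 ∨ n = -1
  nef : ∀ v, T.Cur v → ip KK (T.cl v) ≤ 0
  con : ∀ v, T.Cur v → ω.Wt v 0 → Contracted x v → ip KK (T.cl v) = 0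
  sys : ∃ (a : ℕ) (h : L), 0 < a ∧ h ≠ 0 ∧
    (∀ v, T.Cur v → ∀ n m, ω.Wt v n → IsMin x v m → a * n + v.v h = 3 * m) ∧
    (∀ v n m, ω.Wt v n → IsMin x v m → 3 * m ≤ a * n + v.v h) ∧
    ∃ (P : Coord L) (q : L), P2S x P q a

end

end LCY
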