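import Pool.Agent.Helper11.LCY.Stmts
import Pool.Agent.Helper48.LCY.Asm

/-!
Assembly of STEP 3 for MP_f7e214_ag: reduction to full rank.
-/

open Polynomial Pool.Agent.Helper82.LCY

namespace LCY

noncomputable section

/-- OUT1. If all contracted curves outside the boundary are orthogonal to `H - e_1`, the pencil of
lines through the first point is a conic bundle as required. -/
def ST_OUT1 : Prop := ∀ (L : Type) [Field L] [Algebra ℂ L] (N : ℕ) (ω : Bracket L)
  (x : Fin (N + 1) → L), Adm ω x → ∀ (k : ℕ) (T : PStr L k) (hk : 0 < k), State ω x T →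
  (∀ v, T.Cur v → ω.Wt v 0 → Contracted x v → (T.cl v).1 = (T.cl v).2 ⟨0, hk⟩) → CBOut ω x

/-- OUT2. The case of the class `2 H - e_1 - e_2`. -/
def ST_OUT2 : Prop := ∀ (L : Type) [Field L] [Algebra ℂ L] (N : ℕ) (ω : Bracket L)
  (x : Fin (N + 1) → L), Adm ω x → ∀ (k : ℕ) (T : PStr L k) (hk : 1 < k), State ω x T →
  (∀ v, T.Cur v → ω.Wt v 0 → Contracted x v →
    2 * (T.cl v).1 = (T.cl v).2 ⟨0, Nat.zero_lt_of_lt hk⟩ + (T.cl v).2 ⟨1, hk⟩) →
  CBOut ω x ∨ ConeOut ω x

/-- TC. Curves of the surface with the first `j` points are curves of the surface. -/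
def ST_TC : Prop := ∀ (L : Type) [Field L] [Algebra ℂ L] (k : ℕ) (T : PStr L k) (j : ℕ)
  (hj : j ≤ k) (v : DVal L), (T.trunc j hj).Cur v → T.Cur v

namespace H11

theorem tc_of (h17 : ST_A17) : ST_TC := by
  intro L _ _ k T j hj v hv
  rw [h17] at hv ⊢
  rcases hv with h | ⟨i, hi⟩
  · exact Or.inl h
  · exact Or.inr ⟨Fin.castLE hj i, hi⟩

theorem ip_ff_zero {k : ℕ} (c : Cl ℤ (Fin k)) : ip (ff k 0) c = c.1 := by
  simp [ip, ff]

theorem ip_ff_one {k : ℕ} (hk : 0 < k) (c : Cl ℤ (Fin k)) :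
    ip (ff k 1) c = c.1 - c.2 ⟨0, hk⟩ := by
  simp only [ip, ff, le_refl, if_true, one_mul]
  congr 1
  rw [Finset.sum_eq_single (⟨0, hk⟩ : Fin k)]
  · simp
  · intro i _ hi
    have : ¬ ((i : ℕ) < 1) := by
      intro h
      apply hi
      apply Fin.ext
      show (i : ℕ) = 0
      omega
    rw [if_neg this, zero_mul]
  · intro h; exact absurd (Finset.mem_univ _) h

theorem ip_ff_two {k : ℕ} (hk : 1 < k) (c : Cl ℤ (Fin k)) :
    ip (ff k 2) c = 2 * c.1 - (c.2 ⟨0, Nat.zero_lt_of_lt hk⟩ + c.2 ⟨1, hk⟩) := by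
  simp only [ip, ff]
  have h0 : (⟨0, Nat.zero_lt_of_lt hk⟩ : Fin k) ≠ ⟨1, hk⟩ := by
    intro h
    have := congrArg Fin.val h
    simp at this
  have hs : ∑ i : Fin k, (if (i : ℕ) < 2 then (1 : ℤ) else 0) * c.2 i
      = c.2 ⟨0, Nat.zero_lt_of_lt hk⟩ + c.2 ⟨1, hk⟩ := by
    rw [← Finset.sum_subset (Finset.subset_univ {⟨0, Nat.zero_lt_of_lt hk⟩, ⟨1, hk⟩})]
    · rw [Finset.sum_pair h0]
      simp
    · intro i _ hi
      have : ¬ ((i : ℕ) < 2) := by
        intro h
        apply hi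
        rw [Finset.mem_insert, Finset.mem_singleton]
        rcases Nat.lt_or_ge (i : ℕ) 1 with h1 | h1
        · left; apply Fin.ext; show (i : ℕ) = 0; omega
        · right; apply Fin.ext; show (i : ℕ) = 1; omega
      rw [if_neg this, zero_mul]
  rw [hs]
  norm_num

/-- The assembly of step 3. -/
theorem step3 (hS : ST_STEP) (hTC : ST_TC) (hTY : ST_TY) (h1 : ST_OUT1) (h2 : ST_OUT2) :
    ST_STEP3 := by
  intro L _ _ N ω x hA k T hT
  obtain ⟨T', φ, hX, hT', hφ, hφK, hcl, j, hj, hE, hf, h3⟩ :=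
    hS L N ω x k T hT (CSet ω x T) (fun v hv => ⟨hv.1, hT.con v hv.1 hv.2.1 hv.2.2⟩)
  have hCur : ∀ v, T'.Cur v ↔ T.Cur v := by
    intro v; unfold PStr.Cur; rw [hX]
  have hmem : ∀ v, T'.Cur v → ω.Wt v 0 → Contracted x v → v ∈ CSet ω x T :=
    fun v a b c => ⟨(hCur v).1 a, b, c⟩
  rcases Nat.lt_or_ge j 3 with hj3 | hj3
  · interval_cases j
    · right; right
      have hst : State ω x (T'.trunc 0 hj) := by
        refine ⟨Nat.zero_le _, ?_, ?_, ?_, ?_⟩
        · intro v hv n hn
          exact hT'.wt v (hTC L k T' 0 hj v hv) n hn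
        · intro v hv
          have := hTY L 0 (T'.trunc 0 hj) v hv
          rw [ip_KK]
          simp only [Finset.univ_eq_empty, Finset.sum_empty, add_zero]
          rcases this with h | h
          · linarith [h.1]
          · rw [h.1]; norm_num
        · intro v hv hw hc
          have h4 := hE v (hmem v (hTC L k T' 0 hj v hv) hw hc)
          rw [ip_ff_zero] at h4
          rw [ip_KK]
          simp only [Finset.univ_eq_empty, Finset.sum_empty, add_zero]
          have h5 : ((T'.trunc 0 hj).cl v).1 = (T'.cl v).1 := rfl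
          rw [h5, h4]; norm_num
        · obtain ⟨a, h, ha, hh, e1, e2, e3⟩ := hT'.sys
          exact ⟨a, h, ha, hh, fun v hv => e1 v (hTC L k T' 0 hj v hv), e2, e3⟩
      refine ⟨0, T'.trunc 0 hj, Or.inl rfl, hst, ?_⟩
      intro b hb
      refine ⟨1, one_ne_zero, ?_⟩
      have hb0 : b = 0 := by
        rw [ip_KK] at hb
        simp only [Finset.univ_eq_empty, Finset.sum_empty, add_zero] at hb
        exact Prod.ext (by simpa using hb) (funext fun i => i.elim0)
      rw [hb0, smul_zero]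
      exact Submodule.zero_mem _
    · left
      refine h1 L N ω x hA k T' hj hT' ?_
      intro v a b c
      have h4 := hE v (hmem v a b c)
      rw [ip_ff_one hj] at h4
      linarith
    · rcases h2 L N ω x hA k T' hj hT' (by
        intro v a b c
        have h4 := hE v (hmem v a b c)
        rw [ip_ff_two hj] at h4
        linarith) with h | h
      · exact Or.inl h
      · exact Or.inr (Or.inl h)
  · right; right
    obtain ⟨_, h5, h6⟩ := h3 hj3
    refine ⟨j, T'.trunc j hj, Or.inr hj3, h6 (fun v a b c => ⟨a, b, c⟩), ?_⟩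
    have hset : {v | v ∈ CSet ω x T ∧ (T'.trunc j hj).Cur v} = CSet ω x (T'.trunc j hj) := by
      ext v
      constructor
      · rintro ⟨a, b⟩
        exact ⟨b, a.2.1, a.2.2⟩
      · rintro ⟨a, b, c⟩
        exact ⟨hmem v (hTC L k T' j hj v a) b c, a⟩
    unfold Full
    rw [← hset]
    exact h5

end H11

end

end LCY
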