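import Pool.Agent.Helper11.LCY.Asm3
import Pool.Agent.Helper62.LCY.N4
import Pool.Agent.Helper51.LCY.G1

/-!
The cone: from coordinates in which the 2-form is `dx ∧ dy / F` with `F = a y^2 + B(x) y + C(x)`,
`deg B ≤ 2`, `deg C ≤ 4`, to the normal form `y^2 = h(x)`.
-/

open Polynomial Pool.Agent.Helper82.LCY

namespace LCY

noncomputable section

variable {L : Type} [Field L] [Algebra ℂ L]

namespace H11

theorem ev_taylor (x y : L) (b : ℂ[X]) (f : ℂ[X][X]) :
    ev x (y + aeval x b) f = ev x y (taylor b f) := by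
  rw [taylor_apply, ev_apply, ev_apply, eval₂_comp]
  simp only [eval₂_add, eval₂_X, eval₂_C]
  rfl

theorem exists_shift (P : Coord L) (b : ℂ[X]) :
    ∃ Q : Coord L, Q.x = P.x ∧ Q.y = P.y + aeval P.x b := by
  refine P.mk' _ _ ?_ ?_
  · intro f hf
    refine ⟨taylor b f, 1, ?_, one_ne_zero, ?_⟩
    · intro h0
      exact hf (taylor_injective b (by rw [h0, map_zero]))
    · rw [one_mul, ev_taylor]
  · intro f
    refine ⟨taylor (-b) f, 1, one_ne_zero, ?_⟩
    rw [map_one, div_one, ← ev_taylor]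
    congr 2
    rw [map_neg]; ring

theorem taylor_irr {b : ℂ[X]} {f : ℂ[X][X]} (hf : Irreducible f) : Irreducible (taylor b f) :=
  (MulEquiv.irreducible_iff (taylorEquiv b).toMulEquiv).2 hf

theorem taylor_neg_taylor (b : ℂ[X]) (f : ℂ[X][X]) : taylor b (taylor (-b) f) = f := by
  rw [taylor_taylor, add_neg_cancel, taylor_zero]

/-- The place of a curve in shifted coordinates. -/
theorem place_shift {P Q : Coord L} {b : ℂ[X]} (hx : Q.x = P.x) (hy : Q.y = P.y + aeval P.x b)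
    {g : ℂ[X][X]} {v : DVal L} (h : IsPlaceOf Q g v) : IsPlaceOf P (taylor b g) v := by
  refine ⟨?_, ?_⟩
  · rw [← ev_taylor, ← hy, ← hx]; exact h.1
  · intro g' hg'
    have h1 : ¬ g ∣ taylor (-b) g' := by
      intro hd
      apply hg'
      obtain ⟨q, hq⟩ := hd
      refine ⟨taylor b q, ?_⟩
      rw [← taylor_mul, ← hq, taylor_neg_taylor]
    have h2 := h.2 _ h1
    rw [hx, hy, ev_taylor, taylor_neg_taylor] at h2
    exact h2

/-- A tacnode (or worse) on the divisor of poles contradicts `Wt ≥ -1`. -/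
theorem no_tacnode {N : ℕ} {ω : Bracket L} {x : Fin (N + 1) → L} (hA : Adm ω x) (P : Coord L)
    (c c4 : ℂ)
    (h : ω.br P.x P.y = algebraMap ℂ L c * (P.y ^ 2 - algebraMap ℂ L c4 * P.x ^ 4)) : False := by
  set P1 := P.st (some 0) with hP1
  have hx := P.x_ne
  have e1 : P1.x = P.x := P.st_some_x 0
  have e2 : P1.y = P.y / P.x := by rw [hP1, P.st_some_y, map_zero, sub_zero]
  have e3 : P.y = P1.x * P1.y := by rw [e1, e2]; field_simp
  have h1 := hA.h1 _ _ (H62.wt_ord ω P1)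
  set G : ℂ[X][X] := C (C c) * (C X * X ^ 2 - C (C c4) * C X ^ 3) with hG
  have h2 : ω.br P1.x P1.y = ev P1.x P1.y G := by
    have h3 : ω.br P1.x P1.y = P.x⁻¹ * ω.br P.x P.y := by
      rw [e1, e2, ω.br_div hx]
    rw [h3, h, hG]
    simp only [map_mul, map_sub, map_pow, ev_X, ev_CX, ev_CC]
    rw [e1, e3, e1]
    field_simp
  have hGne : G ≠ 0 := by
    intro h0
    rw [h0, map_zero] at h2
    exact H62.br_ne ω P1 h2
  have hOG : H62.OG 3 G := by
    have a1 : H62.OG 1 (C X : ℂ[X][X]) := by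
      rw [H62.og_one]; simp [cf]
    have a2 : H62.OG 1 (X : ℂ[X][X]) := by
      rw [H62.og_one]; simp [cf]
    have a3 : H62.OG 3 (C X * X ^ 2 : ℂ[X][X]) := by
      have := (a1.mul a2).mul a2
      simp only [Nat.reduceAdd] at this
      rwa [mul_assoc, ← pow_two] at this
    have a4 : H62.OG 3 (C X ^ 3 : ℂ[X][X]) := by
      have := (a1.mul a1).mul a1
      simp only [Nat.reduceAdd] at this
      rwa [← pow_two, ← pow_succ] at this
    exact (a3.sub (a4.mul_left _)).mul_left _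
  obtain ⟨m, hm⟩ := H62.exists_OE hGne
  have h4 := P1.ord_ev hm
  have h5 : 3 ≤ m := hm.le hOG
  rw [h2, h4] at h1
  omega

/-- Adding a polynomial in `x` to `y` does not change the bracket. -/
theorem br_shift (ω : Bracket L) (x y : L) (b : ℂ[X]) :
    ω.br x (y + aeval x b) = ω.br x y := by
  have := br_ev_right ω x y (X + C b)
  rw [map_add, ev_X, ev_C, derivative_add, derivative_X, derivative_C, add_zero, map_one,
    one_mul] at this
  exact this

theorem quad_id {R : Type} [CommRing R] (u w h B D X : R) (c1 : u * w + u * w = B)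
    (c2 : u * w ^ 2 - u * h = D) : u * X ^ 2 + B * X + D = u * ((X + w) ^ 2 - h) := by
  rw [← c1, ← c2]; ring

/-- The normal form of the cone. -/
theorem coneF {N : ℕ} {ω : Bracket L} {x : Fin (N + 1) → L} (hA : Adm ω x) (P P' : Coord L)
    (a0 : ℂ) (B D : ℂ[X]) (ha0 : a0 ≠ 0) (hB : B.natDegree ≤ 2) (hD : D.natDegree ≤ 4)
    (hF : ω.br P.x P.y = ev P.x P.y (C (C a0) * X ^ 2 + C B * X + C D))
    (ha : ∀ (g : ℂ[X][X]) (v : DVal L), Irreducible g → IsPlaceOf P g v →
      v.v (ω.br P.x P.y) = 0 → CYp ω x v)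
    (hx' : P'.x = P.x⁻¹) (hy' : P'.y = P.y / P.x ^ 2)
    (hb : ∀ v : DVal L, IsPlaceOf P' (C X) v → CYp ω x v) : ConeOut ω x := by
  have hx := P.x_ne
  set b : ℂ[X] := C (1 / (2 * a0)) * B with hbdef
  set h : ℂ[X] := C (1 / (4 * a0 ^ 2)) * B ^ 2 - C (1 / a0) * D with hhdef
  obtain ⟨Q, hQx, hQy⟩ := exists_shift P b
  obtain ⟨Q', hQ'x, hQ'y⟩ := Q.tor (-1) 0 (-2) 1 (by norm_num)
  have q1 : Q'.x = Q.x⁻¹ := by rw [hQ'x]; simp
  have q2 : Q'.y = Q.y / Q.x ^ 2 := by
    rw [hQ'y, zpow_one, zpow_neg, div_eq_mul_inv, mul_comm]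
    norm_cast
  have hQxne := Q.x_ne
  -- the polynomial identity
  have hFeq : (C (C a0) * X ^ 2 + C B * X + C D : ℂ[X][X]) =
      C (C a0) * ((X + C b) ^ 2 - C h) := by
    have c1' : C a0 * b + C a0 * b = B := by
      rw [hbdef, ← mul_assoc, ← C_mul, ← add_mul, ← C_add]
      have : a0 * (1 / (2 * a0)) + a0 * (1 / (2 * a0)) = 1 := by field_simp; norm_num
      rw [this, C_1, one_mul]
    have c2' : C a0 * b ^ 2 - C a0 * h = D := by
      rw [hbdef, hhdef, mul_pow, ← C_pow, mul_sub, ← mul_assoc, ← mul_assoc, ← mul_assoc,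
        ← C_mul, ← C_mul, ← C_mul]
      have d1 : a0 * (1 / (2 * a0)) ^ 2 = a0 * (1 / (4 * a0 ^ 2)) := by field_simp; norm_num
      rw [d1, mul_one_div_cancel ha0, C_1, one_mul]
      ring
    have c1 : (C (C a0) * C b + C (C a0) * C b : ℂ[X][X]) = C B := by
      rw [← C_mul, ← C_add, c1']
    have c2 : (C (C a0) * C b ^ 2 - C (C a0) * C h : ℂ[X][X]) = C D := by
      rw [← C_pow, ← C_mul, ← C_mul, ← C_sub, c2']
    exact quad_id _ _ _ _ _ _ c1 c2
  have hbr : ω.br Q.x Q.y = ω.br P.x P.y := by rw [hQx, hQy, br_shift]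
  have hbrQ : ω.br Q.x Q.y = algebraMap ℂ L a0 * (Q.y ^ 2 - aeval Q.x h) := by
    rw [hbr, hF, hFeq, map_mul, ev_CC, map_sub, map_pow, map_add, ev_X, ev_C, ev_C, hQx, hQy]
  have hdeg : h.natDegree ≤ 4 := by
    refine (natDegree_sub_le _ _).trans (max_le ?_ ?_)
    · refine (natDegree_C_mul_le _ _).trans ?_
      refine natDegree_pow_le.trans ?_
      omega
    · exact (natDegree_C_mul_le _ _).trans hD
  -- excluded shapes of h
  have hno : ∀ (a c4 : ℂ), h ≠ C c4 * (X - C a) ^ 4 := by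
    intro a c4 hc
    obtain ⟨Qa, hax, hay⟩ := Q.trans a 0
    refine no_tacnode hA Qa a0 c4 ?_
    have e1 : ω.br Qa.x Qa.y = ω.br Q.x Q.y := by
      rw [hax, hay, ω.sub_left, ω.sub_right, ω.sub_right, ω.const_left, ω.const_left,
        ω.const_right]
      ring
    rw [e1, hbrQ, hc, hax, hay]
    simp only [map_mul, map_pow, map_sub, aeval_C, aeval_X, map_zero, sub_zero]
  refine ⟨Q, Q', h, q1, q2, hdeg, ?_, ?_, ?_, ?_, ?_⟩
  · intro h0
    exact hno 0 0 (by rw [h0, C_0, zero_mul])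
  · intro a; exact hno a _
  · intro a h0
    refine no_tacnode hA Q' (-a0) a ?_
    have e1 : ω.br Q.x (Q.y / Q.x ^ 2) = (Q.x ^ 2)⁻¹ * ω.br Q.x Q.y := by
      rw [div_eq_mul_inv, ω.mul_right, ω.inv_right (pow_ne_zero 2 hQxne), ω.skew Q.x (Q.x ^ 2),
        ω.pow_left, ω.alt]
      ring
    rw [q1, q2, ω.inv_left hQxne, e1, hbrQ, h0, aeval_C, map_neg]
    field_simp
  · intro g v hg hndvd hpl
    have hpl' := place_shift hQx hQy hpl
    refine ha _ v (taylor_irr hg) hpl' ?_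
    have e1 : v.v (ev Q.x Q.y (X ^ 2 - C h)) = 0 := hpl.2 _ hndvd
    have e2 : ev Q.x Q.y (X ^ 2 - C h) ≠ 0 := by
      refine Q.ne ?_
      intro h0
      rw [h0] at hndvd
      exact hndvd (dvd_zero _)
    rw [← hbr, hbrQ]
    have e3 : Q.y ^ 2 - aeval Q.x h = ev Q.x Q.y (X ^ 2 - C h) := by
      rw [map_sub (ev Q.x Q.y), map_pow (ev Q.x Q.y), ev_X, ev_C]
    rw [e3, v.map_mul _ _ (by simpa using ha0) e2, v.map_const _ ha0, e1, add_zero]
  · intro v hpl
    refine hb v ?_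
    -- the shift at infinity
    set br : ℂ[X] := C (b.coeff 0) * X ^ 2 + C (b.coeff 1) * X + C (b.coeff 2) with hbr'
    have hbdeg : b.natDegree ≤ 2 := (natDegree_C_mul_le _ _).trans hB
    have hbx : aeval Q.x b / Q.x ^ 2 = aeval Q'.x br := by
      have : b = C (b.coeff 0) + C (b.coeff 1) * X + C (b.coeff 2) * X ^ 2 := by
        conv_lhs => rw [b.as_sum_range_C_mul_X_pow' (n := 3) (by omega)]
        simp [Finset.sum_range_succ]
      conv_lhs => rw [this]
      rw [hbr', q1]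
      simp only [map_add, map_mul, map_pow, aeval_C, aeval_X]
      field_simp
    have hP'x : Q'.x = P'.x := by rw [q1, hx', hQx]
    have hP'y : Q'.y = P'.y + aeval P'.x br := by
      rw [← hP'x, ← hbx, q2, hy', hQy, hQx]
      field_simp
    have h3 := place_shift hP'x hP'y hpl
    rwa [taylor_C] at h3

end H11

end

end LCY
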