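import Pool.Agent.Helper11.LCY.Asm3
import Pool.Agent.Helper82.LCY.Dom

/-!
Extension of a structure on the first `j` points to all points, and inheritance of the state
(for row STEP of MP_f7e214_ag).
-/

open Polynomial Pool.Agent.Helper82.LCY

namespace LCY

noncomputable section

variable {L : Type} [Field L] [Algebra ℂ L]

namespace H11

/-- The first `j` points of `s`, then the points of `T`. -/
def extR {k : ℕ} (T : PStr L k) {j : ℕ} (s : PStr L j) (i : Fin k) : Subalgebra ℂ L :=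
  if h : (i : ℕ) < j then s.R ⟨i, h⟩ else T.R i

theorem extR_lt {k : ℕ} (T : PStr L k) {j : ℕ} (s : PStr L j) (i : Fin k) (h : (i : ℕ) < j) :
    extR T s i = s.R ⟨i, h⟩ := by
  unfold extR; rw [dif_pos h]

theorem extR_ge {k : ℕ} (T : PStr L k) {j : ℕ} (s : PStr L j) (i : Fin k) (h : j ≤ (i : ℕ)) :
    extR T s i = T.R i := by
  unfold extR; rw [dif_neg (not_lt.2 h)]

theorem trunc_X {k : ℕ} (T : PStr L k) (j : ℕ) (hj : j ≤ k) :
    (T.trunc j hj).X = surf T.S T.R j := by
  show surf T.S (fun i => T.R (Fin.castLE hj i)) j = surf T.S T.R j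
  exact surf_congr T.S _ _ j le_rfl hj fun i h1 h2 _ => rfl

theorem surf_ext_lt {k : ℕ} (T : PStr L k) {j : ℕ} (hj : j ≤ k) (s : PStr L j) {m : ℕ}
    (hm : m ≤ j) : surf s.S (extR T s) m = surf s.S s.R m := by
  refine surf_congr s.S _ _ m (hm.trans hj) hm fun i h1 h2 _ => ?_
  exact extR_lt T s ⟨i, h1⟩ h2

theorem surf_ext_ge {k : ℕ} (T : PStr L k) {j : ℕ} (hj : j ≤ k) (s : PStr L j)
    (hX : s.X = (T.trunc j hj).X) {m : ℕ} (hm : j ≤ m) :
    surf s.S (extR T s) m = surf T.S T.R m := by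
  induction m, hm using Nat.le_induction with
  | base =>
    rw [surf_ext_lt T hj s le_rfl, ← trunc_X T j hj]
    exact hX
  | succ m hm ih =>
    by_cases h : m < k
    · simp only [surf, dif_pos h]
      rw [ih, extR_ge T s ⟨m, h⟩ hm]
    · simp only [surf, dif_neg h]
      exact ih

/-- Extension of a structure on the first `j` points. -/
def extend {k : ℕ} (T : PStr L k) {j : ℕ} (hj : j ≤ k) (s : PStr L j)
    (hX : s.X = (T.trunc j hj).X) : PStr L k where
  S := s.S
  R := extR T s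
  valid := by
    intro i
    rcases Nat.lt_or_ge (i : ℕ) j with h | h
    · rw [extR_lt T s i h, surf_ext_lt T hj s h.le]
      exact s.valid ⟨i, h⟩
    · rw [extR_ge T s i h, surf_ext_ge T hj s hX h]
      exact T.valid i

theorem extend_X {k : ℕ} (T : PStr L k) {j : ℕ} (hj : j ≤ k) (s : PStr L j)
    (hX : s.X = (T.trunc j hj).X) : (extend T hj s hX).X = T.X :=
  surf_ext_ge T hj s hX hj

theorem extend_trunc {k : ℕ} (T : PStr L k) {j : ℕ} (hj : j ≤ k) (s : PStr L j)
    (hX : s.X = (T.trunc j hj).X) : (extend T hj s hX).trunc j hj = s := by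
  have h : (fun i => extR T s (Fin.castLE hj i)) = s.R := by
    funext i
    exact extR_lt T s (Fin.castLE hj i) i.2
  unfold extend PStr.trunc
  cases s
  congr

/-- The classes in the extended structure. -/
theorem extend_cl {k : ℕ} (T : PStr L k) {j : ℕ} (hj : j ≤ k) (s : PStr L j)
    (hX : s.X = (T.trunc j hj).X) (v : DVal L) :
    ((extend T hj s hX).cl v).1 = (s.cl v).1 ∧
      (∀ (i : Fin k) (h : (i : ℕ) < j), ((extend T hj s hX).cl v).2 i = (s.cl v).2 ⟨i, h⟩) ∧
      ∀ i : Fin k, j ≤ (i : ℕ) → ((extend T hj s hX).cl v).2 i = (T.cl v).2 i := by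
  refine ⟨rfl, ?_, ?_⟩
  · intro i h
    show mul (extR T s i) v = mul (s.R ⟨i, h⟩) v
    rw [extR_lt T s i h]
  · intro i h
    show mul (extR T s i) v = mul (T.R i) v
    rw [extR_ge T s i h]

theorem state_congr {N : ℕ} {ω : Bracket L} {x : Fin (N + 1) → L} {k : ℕ} {T T' : PStr L k}
    (hX : T'.X = T.X) (φ : Cl ℤ (Fin k) → Cl ℤ (Fin k)) (hφ : ∀ a b, ip (φ a) (φ b) = ip a b)
    (hφK : φ KK = KK) (hcl : ∀ v, T.Cur v → T'.cl v = φ (T.cl v)) (hT : State ω x T) :
    State ω x T' := by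
  have hCur : ∀ v, T'.Cur v ↔ T.Cur v := by
    intro v; unfold PStr.Cur; rw [hX]
  have hK : ∀ v, T.Cur v → ip KK (T'.cl v) = ip KK (T.cl v) := by
    intro v hv
    rw [hcl v hv, ← hφ KK (T.cl v), hφK]
  refine ⟨hT.le, ?_, ?_, ?_, ?_⟩
  · intro v hv; exact hT.wt v ((hCur v).1 hv)
  · intro v hv
    rw [hK v ((hCur v).1 hv)]
    exact hT.nef v ((hCur v).1 hv)
  · intro v hv
    rw [hK v ((hCur v).1 hv)]
    exact hT.con v ((hCur v).1 hv)
  · obtain ⟨a, f, ha, hf, e1, e2, e3⟩ := hT.sys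
    exact ⟨a, f, ha, hf, fun v hv => e1 v ((hCur v).1 hv), e2, e3⟩

/-- For `j ≥ 3` the class `f_j` is the anticanonical class of the surface with `j` points. -/
theorem ip_ff_trunc {k : ℕ} (T : PStr L k) {j : ℕ} (hj : j ≤ k) (h3 : 3 ≤ j) (v : DVal L) :
    ip KK ((T.trunc j hj).cl v) = - ip (ff k j) (T.cl v) := by
  have h1 : ∑ i : Fin k, (if (i : ℕ) < j then (1 : ℤ) else 0) * (T.cl v).2 i
      = ∑ i : Fin j, ((T.trunc j hj).cl v).2 i := by
    have e1 : ∑ i : Fin k, (if (i : ℕ) < j then (1 : ℤ) else 0) * (T.cl v).2 i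
        = ∑ i ∈ Finset.range k, (if i < j then Pool.Agent.Helper82.LCY.ext (T.cl v).2 i else 0) := by
      rw [Finset.sum_range]
      refine Finset.sum_congr rfl fun i _ => ?_
      rw [ext_fin]
      split_ifs <;> simp
    have e2 : ∑ i : Fin j, ((T.trunc j hj).cl v).2 i
        = ∑ i ∈ Finset.range j, Pool.Agent.Helper82.LCY.ext (T.cl v).2 i := by
      rw [Finset.sum_range]
      refine Finset.sum_congr rfl fun i _ => ?_
      have : Pool.Agent.Helper82.LCY.ext (T.cl v).2 (i : ℕ) = (T.cl v).2 (Fin.castLE hj i) :=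
        ext_fin _ (Fin.castLE hj i)
      rw [this]
      rfl
    rw [e1, e2, ← Finset.sum_subset (Finset.range_mono hj)
      (f := fun i => if i < j then Pool.Agent.Helper82.LCY.ext (T.cl v).2 i else 0)]
    · exact Finset.sum_congr rfl fun i hi => if_pos (Finset.mem_range.1 hi)
    · intro i _ hi
      exact if_neg (by simpa using hi)
  have h2 : ((T.trunc j hj).cl v).1 = (T.cl v).1 := rfl
  rw [ip_KK, h2]
  unfold ip ff
  simp only
  rw [h1, if_neg (by omega), if_neg (by omega)]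
  ring

/-- The state is inherited by the surface with the first `j` points. -/
theorem state_trunc (hTC : ST_TC) {N : ℕ} {ω : Bracket L} {x : Fin (N + 1) → L} {k : ℕ}
    {T : PStr L k} (hT : State ω x T) {j : ℕ} (hj : j ≤ k) (h3 : 3 ≤ j)
    (hnef : ∀ v, T.Cur v → 0 ≤ ip (ff k j) (T.cl v))
    (hE : ∀ v, T.Cur v → ω.Wt v 0 → Contracted x v → ip (ff k j) (T.cl v) = 0) :
    State ω x (T.trunc j hj) := by
  refine ⟨hj.trans hT.le, ?_, ?_, ?_, ?_⟩
  · intro v hv n hn
    exact hT.wt v (hTC L k T j hj v hv) n hn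
  · intro v hv
    rw [ip_ff_trunc T hj h3]
    have := hnef v (hTC L k T j hj v hv)
    omega
  · intro v hv hw hc
    rw [ip_ff_trunc T hj h3, hE v (hTC L k T j hj v hv) hw hc, neg_zero]
  · obtain ⟨a, h, ha, hh, e1, e2, e3⟩ := hT.sys
    exact ⟨a, h, ha, hh, fun v hv => e1 v (hTC L k T j hj v hv), e2, e3⟩

end H11

end

end LCY
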