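import Pool.Agent.Helper97.LCY.NB

/-!
Row NA of the block SURF (MP_f7e214): normal form of three proper points.
-/

open Polynomial

namespace LCY

namespace H11

noncomputable section

variable {L : Type} [Field L] [Algebra ℂ L]

open H82 H97

theorem ptAt_unique {u w : L} {R R' : Subalgebra ℂ L} (h : PtAt u w R) (h' : PtAt u w R') :
    R = R' := by
  obtain ⟨Q, q1, q2, rfl⟩ := h
  obtain ⟨Q', q1', q2', rfl⟩ := h'
  exact H62.loc_congr (q1.trans q1'.symm) (q2.trans q2'.symm)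

theorem ptAt_swap {u w : L} {R : Subalgebra ℂ L} (h : PtAt u w R) : PtAt w u R := by
  obtain ⟨Q, q1, q2, rfl⟩ := h
  obtain ⟨Q', e1, e2⟩ := Q.swap
  exact ⟨Q', e1.trans q2, e2.trans q1, H62.swap_loc e1 e2⟩

theorem same_swap (S : Coord L) : ∃ S' : Coord L, SamePlane S S' ∧ S'.x = S.y ∧ S'.y = S.x := by
  obtain ⟨Ss, s1, s2⟩ := S.swap
  have hPR : H27.PR S Ss !![1, 0, 0; 0, 0, 1; 0, 1, 0] := by
    refine ⟨?_, ?_⟩
    · rw [s1, lin_def, lin_def]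
      simp
    · rw [s2, lin_def, lin_def]
      simp
  have hdet : (!![1, 0, 0; 0, 0, 1; 0, 1, 0] : Matrix (Fin 3) (Fin 3) ℂ).det ≠ 0 := by
    rw [Matrix.det_fin_three]
    simp
  exact ⟨Ss, H84.samePlane_PR hPR hdet, s1, s2⟩

/-- Moving the second point to infinity. -/
theorem na_move {S : Coord L} {R0 R1 : Subalgebra ℂ L} (p0 : PtAt S.x S.y R0)
    (p1 : PtAt S.x⁻¹ (S.y / S.x) R1) (α β : ℂ) : ∃ S0 : Coord L, SamePlane S S0 ∧
      PtAt S0.x S0.y R0 ∧ PtAt S0.x⁻¹ (S0.y / S0.x) R1 ∧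
      S0.y⁻¹ = S.y⁻¹ - algebraMap ℂ L α ∧ S0.x / S0.y = S.x / S.y - algebraMap ℂ L β := by
  have hx := S.x_ne
  have hy := S.y_ne
  obtain ⟨T, t1, t2⟩ := S.tor 1 0 (-1) 1 (Or.inl (by norm_num))
  have t1' : T.x = S.x := by rw [t1]; simp
  have t2' : T.y = S.y / S.x := by rw [t2]; simp [div_eq_mul_inv, mul_comm]
  obtain ⟨S0, hS0, q0, -, e3, e4⟩ := nb_move p0 (R1 := T.loc) ⟨T, t1', t2', rfl⟩ α β
  have hx0 := S0.x_ne
  have hy0 := S0.y_ne
  refine ⟨S0, hS0, q0, ?_, e3, e4⟩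
  obtain ⟨U, u1, u2⟩ := S0.tor (-1) 0 (-1) 1 (Or.inr (by norm_num))
  have u1' : U.x = S0.x⁻¹ := by rw [u1]; simp
  have u2' : U.y = S0.y / S0.x := by rw [u2]; simp [div_eq_mul_inv, mul_comm]
  obtain ⟨Q, q1, q2, rfl⟩ := p1
  have a1 : Vl Q.loc S.x⁻¹ 0 := by rw [← q1]; exact vl_x
  have a2 : Vl Q.loc (S.y / S.x) 0 := by rw [← q2]; exact vl_y
  have b1 : Vl U.loc S0.x⁻¹ 0 := by rw [← u1']; exact vl_x
  have b2 : Vl U.loc (S0.y / S0.x) 0 := by rw [← u2']; exact vl_y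
  have hne1 : S.x / S.y - algebraMap ℂ L β ≠ 0 := by rw [← e4]; exact div_ne_zero hx0 hy0
  have f1 : S0.y / S0.x = (S.y / S.x) / (1 - algebraMap ℂ L β * (S.y / S.x)) := by
    rw [← inv_div, e4]
    have h2 : 1 - algebraMap ℂ L β * (S.y / S.x) = (S.y / S.x) * (S.x / S.y - algebraMap ℂ L β) := by
      field_simp
    rw [h2]
    field_simp
  have f2 : S0.x⁻¹ = (S.x⁻¹ - algebraMap ℂ L α * (S.y / S.x)) /
      (1 - algebraMap ℂ L β * (S.y / S.x)) := by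
    have h3 : S0.x⁻¹ = S0.y⁻¹ * (S0.y / S0.x) := by field_simp
    rw [h3, e3, f1]
    field_simp
  have g1 : S.y / S.x = (S0.y / S0.x) / (1 + algebraMap ℂ L β * (S0.y / S0.x)) := by
    have h1 : S.x / S.y = S0.x / S0.y + algebraMap ℂ L β := by rw [e4]; ring
    have h2 : 1 + algebraMap ℂ L β * (S0.y / S0.x) =
        (S0.y / S0.x) * (S0.x / S0.y + algebraMap ℂ L β) := by
      field_simp
    rw [← inv_div, h1, h2]
    have h3 : S0.x / S0.y + algebraMap ℂ L β ≠ 0 := by rw [← h1]; exact div_ne_zero hx hy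
    field_simp
  have g2 : S.x⁻¹ = (S0.x⁻¹ + algebraMap ℂ L α * (S0.y / S0.x)) /
      (1 + algebraMap ℂ L β * (S0.y / S0.x)) := by
    have h3 : S.x⁻¹ = S.y⁻¹ * (S.y / S.x) := by field_simp
    have h4 : S.y⁻¹ = S0.y⁻¹ + algebraMap ℂ L α := by rw [e3]; ring
    rw [h3, h4, g1]
    field_simp
  refine PtAt.change (u := S.x⁻¹) (v := S.y / S.x) (R' := U.loc) ⟨Q, q1, q2, rfl⟩
    ⟨U, u1', u2', rfl⟩ ?_ ?_ ?_ ?_
  · rw [f2]
    have := vl_div (vl_sub a1 (vl_mul (vl_const α) a2)) (vl_sub vl_one (vl_mul (vl_const β) a2))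
      (by simp)
    simpa using this
  · rw [f1]
    have := vl_div a2 (vl_sub vl_one (vl_mul (vl_const β) a2)) (by simp)
    simpa using this
  · rw [g2]
    have := vl_div (vl_add b1 (vl_mul (vl_const α) b2)) (vl_add vl_one (vl_mul (vl_const β) b2))
      (by simp)
    simpa using this
  · rw [g1]
    have := vl_div b2 (vl_add vl_one (vl_mul (vl_const β) b2)) (by simp)
    simpa using this

/-- **NA.** -/
theorem st_NA : ST_NA := by
  intro L _ _ S R hR hinj hno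
  -- the first point at the origin
  obtain ⟨S1, hS1, p0⟩ : ∃ S1 : Coord L, SamePlane S S1 ∧ PtAt S1.x S1.y (R 0) := by
    obtain ⟨A, Q, hA, hQ, hx, hy⟩ := hR 0
    obtain ⟨S1, h⟩ := H27.exists_PR S hA
    exact ⟨S1, H84.samePlane_PR h hA, ⟨Q, hx.trans h.1.symm, hy.trans h.2.symm, hQ⟩⟩
  have h1' : R 1 ∈ plane S1 := by rw [hS1.1]; exact hR 1
  -- the second point is not on the first axis
  obtain ⟨S2, hS2, p0', h1⟩ : ∃ S2 : Coord L, SamePlane S1 S2 ∧ PtAt S2.x S2.y (R 0) ∧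
      ((∃ a b : ℂ, b ≠ 0 ∧ PtAt (S2.x - algebraMap ℂ L a) (S2.y - algebraMap ℂ L b) (R 1)) ∨
      (∃ b : ℂ, b ≠ 0 ∧ PtAt S2.x⁻¹ (S2.y / S2.x - algebraMap ℂ L b) (R 1)) ∨
      PtAt S2.y⁻¹ (S2.x / S2.y) (R 1)) := by
    rcases mem_plane h1' with ⟨a, b, h⟩ | ⟨b, h⟩ | h
    · by_cases hb : b = 0
      · obtain ⟨S2, hS2, s1, s2⟩ := same_swap S1
        refine ⟨S2, hS2, by rw [s1, s2]; exact ptAt_swap p0, Or.inl ⟨b, a, ?_, ?_⟩⟩
        · rintro rfl
          rw [hb, map_zero, sub_zero, sub_zero] at h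
          exact absurd (hinj (ptAt_unique p0 h)) (by decide)
        · rw [s1, s2]; exact ptAt_swap h
      · exact ⟨S1, ⟨rfl, fun _ => rfl⟩, p0, Or.inl ⟨a, b, hb, h⟩⟩
    · by_cases hb : b = 0
      · obtain ⟨S2, hS2, s1, s2⟩ := same_swap S1
        refine ⟨S2, hS2, by rw [s1, s2]; exact ptAt_swap p0, Or.inr (Or.inr ?_)⟩
        rw [s1, s2]
        rw [hb, map_zero, sub_zero] at h
        exact h
      · exact ⟨S1, ⟨rfl, fun _ => rfl⟩, p0, Or.inr (Or.inl ⟨b, hb, h⟩)⟩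
    · exact ⟨S1, ⟨rfl, fun _ => rfl⟩, p0, Or.inr (Or.inr h)⟩
  -- the second point at infinity on the second axis
  obtain ⟨α, β, p1⟩ := nb_third h1
  have hx2 := S2.x_ne
  obtain ⟨T, t1, t2⟩ := S2.tor 1 0 (-1) 1 (Or.inl (by norm_num))
  have t1' : T.x = S2.x := by rw [t1]; simp
  have t2' : T.y = S2.y / S2.x := by rw [t2]; simp [div_eq_mul_inv, mul_comm]
  obtain ⟨S3, hS3, q0, -, e3, e4⟩ := nb_move p0' (R1 := T.loc) ⟨T, t1', t2', rfl⟩ α β
  rw [← e3, ← e4] at p1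
  -- exchange the axes
  obtain ⟨S4, hS4, s1, s2⟩ := same_swap S3
  have q0' : PtAt S4.x S4.y (R 0) := by rw [s1, s2]; exact ptAt_swap q0
  have q1' : PtAt S4.x⁻¹ (S4.y / S4.x) (R 1) := by rw [s1, s2]; exact p1
  have hSS : SamePlane S S4 :=
    H84.SamePlane.trans (H84.SamePlane.trans (H84.SamePlane.trans hS1 hS2) hS3) hS4
  have hx := S4.x_ne
  have hy := S4.y_ne
  -- the third point is not on the first axis
  have h2' : R 2 ∈ plane S4 := by rw [hSS.1]; exact hR 2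
  obtain ⟨v, v1, v2⟩ := exists_axis S4
  have hdeg : deg S v = 1 := by
    rw [← hSS.2 v]
    exact deg_ax2 v1 v2
  have m0 : mul (R 0) v = 1 := mul_ptAt q0' v1 v2
  have m1 : mul (R 1) v = 1 := by
    refine mul_ptAt q1' ?_ (resTr_inv v2)
    rw [v.map_div hy hx, v1, resTr_val v2]
    rfl
  have m2 : mul (R 2) v ≠ 1 := fun h => hno v ⟨hdeg, m0, m1, h⟩
  have key : ∃ α β : ℂ,
      PtAt (S4.y⁻¹ - algebraMap ℂ L α) (S4.x / S4.y - algebraMap ℂ L β) (R 2) := by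
    apply nb_third
    rcases mem_plane h2' with ⟨a, b, h⟩ | ⟨b, h⟩ | h
    · left
      refine ⟨a, b, ?_, h⟩
      rintro rfl
      apply m2
      refine mul_ptAt h ?_ (resTr_sub_const v2 a)
      rw [map_zero, sub_zero]
      exact v1
    · right; left
      refine ⟨b, ?_, h⟩
      rintro rfl
      apply m2
      refine mul_ptAt h ?_ (resTr_inv v2)
      rw [map_zero, sub_zero, v.map_div hy hx, v1, resTr_val v2]
      rfl
    · exact Or.inr (Or.inr h)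
  obtain ⟨α', β', p2⟩ := key
  obtain ⟨S0, hS0, r0, r1, f1, f2⟩ := na_move q0' q1' α' β'
  obtain ⟨S', w1, w2⟩ := S0.tor (-1) 0 0 (-1) (Or.inl (by norm_num))
  refine ⟨S0, S', H84.SamePlane.trans hSS hS0, ?_, ?_, r0, r1, ?_⟩
  · rw [w1]; simp
  · rw [w2]; simp
  · show PtAt S0.y⁻¹ (S0.x / S0.y) (R 2)
    rw [f1, f2]
    exact p2

end

end H11

end LCY
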