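import Pool.Agent.Helper11.LCY.State

/-!
Statements of the rows of the block SURFACES / STEP 3 for MP_f7e214_ag.
Proof texts: see the table `lcy_rows` and the swarm log.
-/

open Polynomial Pool.Agent.Helper82.LCY

namespace LCY

noncomputable section

/-- `z` is in the maximal ideal of the local ring `R`. -/
def Mx {L : Type} [Field L] [Algebra ℂ L] (R : Subalgebra ℂ L) (z : L) : Prop :=
  z ∈ R ∧ (z = 0 ∨ z⁻¹ ∉ R)

/-- `v` is a curve of the plane with affine coordinates `S`. -/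
def PlaneCur {L : Type} [Field L] [Algebra ℂ L] (S : Coord L) (v : DVal L) : Prop :=
  IsInf S v ∨ ∃ g, IsAdic S g v

/-- The curves of the surface, as a set of normalised (`v 0 = 0`) valuations. -/
def PStr.C {L : Type} [Field L] [Algebra ℂ L] {k : ℕ} (T : PStr L k) : Set (DVal L) :=
  {v | v.v 0 = 0 ∧ T.Cur v}

/-- The curves through the point `R`, normalised. -/
def Thr {L : Type} [Field L] [Algebra ℂ L] (R : Subalgebra ℂ L) : Set (DVal L) :=
  {v | v.v 0 = 0 ∧ Through R v}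

/-- `D` is a divisor on the surface (only its values on `T.C` matter). -/
def PStr.IsDiv {L : Type} [Field L] [Algebra ℂ L] {k : ℕ} (T : PStr L k) (D : DVal L → ℤ) :
    Prop := {v | v ∈ T.C ∧ D v ≠ 0}.Finite

/-- The class of a divisor. -/
def PStr.clD {L : Type} [Field L] [Algebra ℂ L] {k : ℕ} (T : PStr L k) (D : DVal L → ℤ) :
    Cl ℤ (Fin k) := ∑ᶠ v ∈ T.C, D v • T.cl v

/-- The linear system of the divisor `D`. -/
def PStr.H {L : Type} [Field L] [Algebra ℂ L] {k : ℕ} (T : PStr L k) (D : DVal L → ℤ) :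
    Submodule ℂ L where
  carrier := {h | ∀ v ∈ T.C, h = 0 ∨ 0 ≤ v.v h + D v}
  zero_mem' := fun v _ => Or.inl rfl
  add_mem' := by
    intro a b ha hb v hv
    by_cases h : a + b = 0
    · exact Or.inl h
    right
    by_cases h1 : a = 0
    · rcases hb v hv with h2 | h2
      · rw [h1, h2, add_zero] at h; exact absurd rfl h
      · rwa [h1, zero_add]
    by_cases h2 : b = 0
    · rcases ha v hv with h3 | h3
      · exact absurd h3 h1
      · rwa [h2, add_zero]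
    have h3 := (ha v hv).resolve_left h1
    have h4 := (hb v hv).resolve_left h2
    have h5 := v.map_add a b h1 h2 h
    rcases min_le_iff.1 h5 with h6 | h6 <;> linarith
  smul_mem' := by
    intro c a ha v hv
    by_cases hc : c = 0
    · left; simp [hc]
    by_cases h1 : a = 0
    · left; simp [h1]
    right
    have h3 := (ha v hv).resolve_left h1
    rw [Algebra.smul_def, v.map_mul _ _ (by simpa using hc) h1, v.map_const c hc, zero_add]
    exact h3

/-- Twice the Euler characteristic of the class `(d; m)`: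
`(d+1)(d+2) - ∑ m_i (m_i + 1) = D.D - K.D + 2`. -/
def chi2 {k : ℕ} (c : Cl ℤ (Fin k)) : ℤ :=
  (c.1 + 1) * (c.1 + 2) - ∑ i, c.2 i * (c.2 i + 1)

/-- `t` is a local equation of the divisor `D` at the point `R`. -/
def IsLoc {L : Type} [Field L] [Algebra ℂ L] (D : DVal L → ℤ) (R : Subalgebra ℂ L) (t : L) :
    Prop := t ≠ 0 ∧ ∀ v ∈ Thr R, v.v t = D v

/-! ### Local theory at a point -/

/-- A5. The order valuation depends on the point only. -/
def ST_A5 : Prop := ∀ (L : Type) [Field L] [Algebra ℂ L] (R : Subalgebra ℂ L) (v w : DVal L),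
  IsOrd R v → IsOrd R w → v.Same w

/-- A6. -/
def ST_A6 : Prop := ∀ (L : Type) [Field L] [Algebra ℂ L] (P : Coord L) (v : DVal L),
  Through P.loc v ↔ ∃ g, IsAdic P g v ∧ cf g (0, 0) = 0

/-- A7. -/
def ST_A7 : Prop := ∀ (L : Type) [Field L] [Algebra ℂ L] (P : Coord L) (v : DVal L) (g : ℂ[X][X]),
  IsAdic P g v → cf g (0, 0) = 0 → mul P.loc v = ordn g ∧ 1 ≤ ordn g

/-- A8. -/
def ST_A8 : Prop := ∀ (L : Type) [Field L] [Algebra ℂ L] (S : Coord L) (v : DVal L) (g : ℂ[X][X]),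
  IsAdic S g v → deg S v = tdeg g ∧ 1 ≤ tdeg g ∧ ¬ IsInf S v

/-- A9. The local ring is the intersection of the valuation rings of the curves through the
point. -/
def ST_A9 : Prop := ∀ (L : Type) [Field L] [Algebra ℂ L] (P : Coord L) (z : L),
  z ∈ P.loc ↔ ∀ v, Through P.loc v → v.Int z

/-- A10. Local factorisation. -/
def ST_A10 : Prop := ∀ (L : Type) [Field L] [Algebra ℂ L] (P : Coord L) (z : L), z ≠ 0 →
  {v | v ∈ Thr P.loc ∧ v.v z ≠ 0}.Finite ∧
  ∀ w, IsOrd P.loc w → w.v z = ∑ᶠ v ∈ Thr P.loc, v.v z * mul P.loc v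

/-- A11. Equality of points. -/
def ST_A11 : Prop := ∀ (L : Type) [Field L] [Algebra ℂ L] (P Q : Coord L),
  Mx P.loc Q.x → Mx P.loc Q.y → Mx Q.loc P.x → Mx Q.loc P.y → P.loc = Q.loc

/-- A12. -/
def ST_A12 : Prop := ∀ f g : ℂ[X][X], f ≠ 0 → g ≠ 0 →
  ordn (f * g) = ordn f + ordn g ∧ tdeg (f * g) = tdeg f + tdeg g

/-- A13. Curves through a point of the exceptional curve. -/
def ST_A13 : Prop := ∀ (L : Type) [Field L] [Algebra ℂ L] (R R' : Subalgebra ℂ L) (v : DVal L),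
  Next R R' → R ≤ R' ∧ (∀ z, Mx R z → Mx R' z) ∧ (Centred R' v → Centred R v) ∧
    (Through R' v → Through R v ∨ IsOrd R v) ∧ (IsOrd R v → Through R' v ∧ mul R' v = 1)

/-- A13'. Every curve through a point passes through a point of the exceptional curve. -/
def ST_A13' : Prop := ∀ (L : Type) [Field L] [Algebra ℂ L] (P : Coord L) (v : DVal L),
  Through P.loc v → ∃ R', Next P.loc R' ∧ Through R' v

/-- A14. Separatedness. -/
def ST_A14 : Prop := ∀ (L : Type) [Field L] [Algebra ℂ L] (k : ℕ) (T : PStr L k) (j : ℕ)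
  (R R' : Subalgebra ℂ L) (v : DVal L), R ∈ surf T.S T.R j → R' ∈ surf T.S T.R j →
  Centred R v → (∀ z ∈ R', v.Int z) → R = R'

/-- A15. Every valuation is a curve of the surface or has its centre at a point of it. -/
def ST_A15 : Prop := ∀ (L : Type) [Field L] [Algebra ℂ L] (k : ℕ) (T : PStr L k) (v : DVal L),
  T.Cur v ∨ ∃ R ∈ T.X, Centred R v

/-- A16. Every point of a surface is the local ring of a pair of coordinates. -/
def ST_A16 : Prop := ∀ (L : Type) [Field L] [Algebra ℂ L] (k : ℕ) (T : PStr L k) (j : ℕ),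
  ∀ R ∈ surf T.S T.R j, ∃ P : Coord L, P.loc = R

/-- A17. The curves of the surface. -/
def ST_A17 : Prop := ∀ (L : Type) [Field L] [Algebra ℂ L] (k : ℕ) (T : PStr L k) (v : DVal L),
  T.Cur v ↔ PlaneCur T.S v ∨ ∃ i, IsOrd (T.R i) v

/-- A18. The exceptional curves are not curves of the preceding surfaces, and the points blown up
are different. -/
def ST_A18 : Prop := ∀ (L : Type) [Field L] [Algebra ℂ L] (k : ℕ) (T : PStr L k) (i : Fin k)
  (v : DVal L), IsOrd (T.R i) v → ¬ PlaneCur T.S v ∧ deg T.S v = 0 ∧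
    (∀ j, IsOrd (T.R j) v → j = i) ∧ (∀ j, j < i → ¬ Through (T.R j) v) ∧
    ∀ j, i < j → mul (T.R j) v = 0 ∨ mul (T.R j) v = 1

/-- TY. The shape of the classes of curves. -/
def ST_TY : Prop := ∀ (L : Type) [Field L] [Algebra ℂ L] (k : ℕ) (T : PStr L k) (v : DVal L),
  T.Cur v → (1 ≤ (T.cl v).1 ∧ ∀ i, 0 ≤ (T.cl v).2 i ∧ (T.cl v).2 i ≤ (T.cl v).1) ∨
    ((T.cl v).1 = 0 ∧ ∃ p, IsOrd (T.R p) v ∧ (T.cl v).2 p = -1 ∧ (∀ i, i < p → (T.cl v).2 i = 0) ∧
      ∀ i, p < i → (T.cl v).2 i = 0 ∨ (T.cl v).2 i = 1)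

/-! ### Divisors -/

/-- B1. Principal divisors have class zero. -/
def ST_B1 : Prop := ∀ (L : Type) [Field L] [Algebra ℂ L] (k : ℕ) (T : PStr L k) (f : L), f ≠ 0 →
  T.IsDiv (fun v => v.v f) ∧ T.clD (fun v => v.v f) = 0

/-- B2. The class of a 2-form (with the two facts about 2-forms as hypotheses). -/
def ST_B2K : Prop := ∀ (L : Type) [Field L] [Algebra ℂ L] (k : ℕ) (T : PStr L k) (ω : Bracket L)
  (w : DVal L → ℤ), (∀ v, ω.Wt v (w v)) →
  (∀ (Q : Coord L) (v : DVal L), v.Int Q.x → v.Int Q.y → Through Q.loc v →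
    ω.br Q.x Q.y ≠ 0 ∧ v.v (ω.br Q.x Q.y) = - w v) →
  (∀ (Q : Coord L) (v : DVal L), IsOrd Q.loc v → v.v (ω.br Q.x Q.y) = 1 - w v) →
  T.IsDiv w ∧ T.clD w = KK

/-- B3. A divisor of class zero is principal. -/
def ST_B3 : Prop := ∀ (L : Type) [Field L] [Algebra ℂ L] (k : ℕ) (T : PStr L k)
  (D : DVal L → ℤ), T.IsDiv D → T.clD D = 0 → ∃ f, f ≠ 0 ∧ ∀ v ∈ T.C, v.v f = D v

/-- B4. Every class is the class of a divisor. -/
def ST_B4 : Prop := ∀ (L : Type) [Field L] [Algebra ℂ L] (k : ℕ) (T : PStr L k)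
  (c : Cl ℤ (Fin k)), ∃ D, T.IsDiv D ∧ T.clD D = c

/-- D0. Local equations exist, and are unique up to units. -/
def ST_D0 : Prop := ∀ (L : Type) [Field L] [Algebra ℂ L] (k : ℕ) (T : PStr L k)
  (D : DVal L → ℤ), T.IsDiv D → ∀ j, ∀ R ∈ surf T.S T.R j, j ≤ k → (∃ t, IsLoc D R t) ∧
    ∀ t t', IsLoc D R t → IsLoc D R t' → t / t' ∈ R ∧
      ∀ w, IsOrd R w → w.v t = w.v t' ∧ w.v t = ∑ᶠ v ∈ Thr R, D v * mul R v

/-- D7. The last blow-up: linear systems and classes. -/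
def ST_D7 : Prop := ∀ (L : Type) [Field L] [Algebra ℂ L] (k : ℕ) (T : PStr L (k + 1))
  (D : DVal L → ℤ), T.IsDiv D → (T.trunc k (Nat.le_succ k)).IsDiv D ∧
    ∃ w ∈ T.C, IsOrd (T.R (Fin.last k)) w ∧ T.C = (T.trunc k (Nat.le_succ k)).C ∪ {w} ∧
    w ∉ (T.trunc k (Nat.le_succ k)).C ∧
    ∀ t, IsLoc D (T.R (Fin.last k)) t →
      (T.clD D).1 = ((T.trunc k (Nat.le_succ k)).clD D).1 ∧
      (∀ i : Fin k, (T.clD D).2 i.castSucc = ((T.trunc k (Nat.le_succ k)).clD D).2 i) ∧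
      (T.clD D).2 (Fin.last k) = w.v t - D w ∧
      ∀ h, h ∈ T.H D ↔ h ∈ (T.trunc k (Nat.le_succ k)).H D ∧ h * t ∈ T.R (Fin.last k) ∧
        (h = 0 ∨ (T.clD D).2 (Fin.last k) ≤ w.v (h * t))

/-- C1. Riemann-Roch inequality by counting conditions. -/
def ST_C1 : Prop := ∀ (L : Type) [Field L] [Algebra ℂ L] (k : ℕ) (T : PStr L k)
  (D : DVal L → ℤ), T.IsDiv D → Module.Finite ℂ (T.H D) ∧
    (-2 ≤ (T.clD D).1 → chi2 (T.clD D) ≤ 2 * (Module.finrank ℂ (T.H D) : ℤ))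

/-- INT. Intersection numbers (exact Bezout and Noether formulas): there are local intersection
numbers `I`, positive exactly at common points, whose sum over the points of the surface is the
intersection number of the classes. -/
def ST_INT : Prop := ∀ (L : Type) [Field L] [Algebra ℂ L],
  ∃ I : Subalgebra ℂ L → DVal L → DVal L → ℕ,
    (∀ R v w, Through R v → Through R w → ¬ v.Same w → 1 ≤ I R v w) ∧
    (∀ R v w, I R v w ≠ 0 → Through R v ∧ Through R w) ∧
    ∀ (k : ℕ) (T : PStr L k) (v w : DVal L), T.Cur v → T.Cur w → ¬ v.Same w →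
      {R | R ∈ T.X ∧ I R v w ≠ 0}.Finite ∧ ip (T.cl v) (T.cl w) = ∑ᶠ R ∈ T.X, (I R v w : ℤ)

/-- C3. Different curves have nonnegative intersection number. -/
def ST_C3 : Prop := ∀ (L : Type) [Field L] [Algebra ℂ L] (k : ℕ) (T : PStr L k) (v w : DVal L),
  T.Cur v → T.Cur w → ¬ v.Same w → 0 ≤ ip (T.cl v) (T.cl w)

/-- C4. Different curves have intersection number zero if and only if they have no common
point. -/
def ST_C4 : Prop := ∀ (L : Type) [Field L] [Algebra ℂ L] (k : ℕ) (T : PStr L k) (v w : DVal L),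
  T.Cur v → T.Cur w → ¬ v.Same w →
  (ip (T.cl v) (T.cl w) = 0 ↔ ∀ R ∈ T.X, Through R v → ¬ Through R w)

/-- C5. Effectivity. -/
def ST_C5 : Prop := ∀ (L : Type) [Field L] [Algebra ℂ L] (k : ℕ) (T : PStr L k)
  (c : Cl ℤ (Fin k)), 0 ≤ c.1 → 0 < chi2 c →
  ∃ n : DVal L → ℤ, T.IsDiv n ∧ (∀ v ∈ T.C, 0 ≤ n v) ∧ T.clD n = c

/-! ### Changes of structure -/

/-- SW. Exchange of two consecutive points, the second not infinitely near to the first. -/
def ST_SW : Prop := ∀ (L : Type) [Field L] [Algebra ℂ L] (k : ℕ) (T : PStr L k) (i : ℕ)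
  (hi : i + 1 < k), ¬ Next (T.R ⟨i, Nat.lt_of_succ_lt hi⟩) (T.R ⟨i + 1, hi⟩) →
  ∃ T' : PStr L k, T'.S = T.S ∧ T'.X = T.X ∧
    T'.R = T.R ∘ Equiv.swap ⟨i, Nat.lt_of_succ_lt hi⟩ ⟨i + 1, hi⟩

/-- PG. Projective changes of coordinates. -/
def ST_PG : Prop := ∀ (L : Type) [Field L] [Algebra ℂ L] (S : Coord L)
  (A : Matrix (Fin 3) (Fin 3) ℂ), A.det ≠ 0 → ∃ S' : Coord L,
  S'.x = lin S (A 1) / lin S (A 0) ∧ S'.y = lin S (A 2) / lin S (A 0) ∧
  plane S' = plane S ∧ ∀ v, deg S' v = deg S v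

/-- The three standard triples of points in the plane with affine coordinates `S` and the new
plane `S'`. -/
structure StdA {L : Type} [Field L] [Algebra ℂ L] (S S' : Coord L)
    (R : Fin 3 → Subalgebra ℂ L) : Prop where
  x : S'.x = S.x⁻¹
  y : S'.y = S.y⁻¹
  r0 : ∃ P : Coord L, P.x = S.x ∧ P.y = S.y ∧ P.loc = R 0
  r1 : ∃ P : Coord L, P.x = S.x⁻¹ ∧ P.y = S.y / S.x ∧ P.loc = R 1
  r2 : ∃ P : Coord L, P.x = S.y⁻¹ ∧ P.y = S.x / S.y ∧ P.loc = R 2

/-- Second standard triple: `R 1` is infinitely near to `R 0` in the direction of the first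
axis, `R 2` is the point at infinity of the second axis. -/
structure StdB {L : Type} [Field L] [Algebra ℂ L] (S S' : Coord L)
    (R : Fin 3 → Subalgebra ℂ L) : Prop where
  x : S'.x = S.x
  y : S'.y = S.x ^ 2 / S.y
  r0 : ∃ P : Coord L, P.x = S.x ∧ P.y = S.y ∧ P.loc = R 0
  r1 : ∃ P : Coord L, P.x = S.x ∧ P.y = S.y / S.x ∧ P.loc = R 1
  r2 : ∃ P : Coord L, P.x = S.y⁻¹ ∧ P.y = S.x / S.y ∧ P.loc = R 2

/-- Third standard triple: `R 0` is the point at infinity of the second axis, `R 1` the direction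
of the line at infinity, `R 2` the common point of the parabolas `y = x^2 + a x + b`. -/
structure StdC {L : Type} [Field L] [Algebra ℂ L] (S S' : Coord L)
    (R : Fin 3 → Subalgebra ℂ L) : Prop where
  x : S'.x = S.x
  y : S'.y = S.x ^ 2 - S.y
  r0 : ∃ P : Coord L, P.x = S.x / S.y ∧ P.y = S.y⁻¹ ∧ P.loc = R 0
  r1 : ∃ P : Coord L, P.x = S.x / S.y ∧ P.y = S.x⁻¹ ∧ P.loc = R 1
  r2 : ∃ P : Coord L, P.x = S.x / S.y ∧ P.y = S.y / S.x ^ 2 - 1 ∧ P.loc = R 2

/-- The quadratic transformation of classes. -/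
def quad {k : ℕ} (c : Cl ℤ (Fin (k + 3))) : Cl ℤ (Fin (k + 3)) :=
  (2 * c.1 - c.2 0 - c.2 1 - c.2 2, fun i => if i = 0 then c.1 - c.2 1 - c.2 2
    else if i = 1 then c.1 - c.2 0 - c.2 2 else if i = 2 then c.1 - c.2 0 - c.2 1 else c.2 i)

/-- `S'` is a plane with the same points and the same degrees as `S`. -/
def SamePlane {L : Type} [Field L] [Algebra ℂ L] (S S' : Coord L) : Prop :=
  plane S' = plane S ∧ ∀ v, deg S' v = deg S v

/-- There is no line through the three points. -/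
def NoLine {L : Type} [Field L] [Algebra ℂ L] (S : Coord L) (R : Fin 3 → Subalgebra ℂ L) : Prop :=
  ∀ v, ¬ (deg S v = 1 ∧ mul (R 0) v = 1 ∧ mul (R 1) v = 1 ∧ mul (R 2) v = 1)

/-- NA. Normal form of three proper points. -/
def ST_NA : Prop := ∀ (L : Type) [Field L] [Algebra ℂ L] (S : Coord L)
  (R : Fin 3 → Subalgebra ℂ L), (∀ i, R i ∈ plane S) → Function.Injective R → NoLine S R →
  ∃ S0 S' : Coord L, SamePlane S S0 ∧ StdA S0 S' R

/-- NB. Normal form of two proper points and a point infinitely near to the first. -/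
def ST_NB : Prop := ∀ (L : Type) [Field L] [Algebra ℂ L] (S : Coord L)
  (R : Fin 3 → Subalgebra ℂ L), R 0 ∈ plane S → Next (R 0) (R 1) → R 2 ∈ plane S → R 2 ≠ R 0 →
  NoLine S R → ∃ S0 S' : Coord L, SamePlane S S0 ∧ StdB S0 S' R

/-- NC. Normal form of a chain of three points. -/
def ST_NC : Prop := ∀ (L : Type) [Field L] [Algebra ℂ L] (S : Coord L)
  (R : Fin 3 → Subalgebra ℂ L), R 0 ∈ plane S → Next (R 0) (R 1) → Next (R 1) (R 2) →
  (∀ v, IsOrd (R 0) v → ¬ Through (R 2) v) → NoLine S R →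
  ∃ S0 S' : Coord L, SamePlane S S0 ∧ StdC S0 S' R

/-- The conclusion of the three rows QA, QB, QC about the standard transformations. -/
def QuadPair {L : Type} [Field L] [Algebra ℂ L] (S S' : Coord L)
    (R R' : Fin 3 → Subalgebra ℂ L) : Prop :=
  (∀ i : Fin 3, R' i ∈ surf S' R' i) ∧ surf S' R' 3 = surf S R 3 ∧
  ∀ v, (∃ R0 ∈ surf S R 3, Through R0 v) →
    deg S' v = 2 * deg S v - mul (R 0) v - mul (R 1) v - mul (R 2) v ∧
    mul (R' 0) v = deg S v - mul (R 1) v - mul (R 2) v ∧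
    mul (R' 1) v = deg S v - mul (R 0) v - mul (R 2) v ∧
    mul (R' 2) v = deg S v - mul (R 0) v - mul (R 1) v

/-- QA. -/
def ST_QA : Prop := ∀ (L : Type) [Field L] [Algebra ℂ L] (S S' : Coord L)
  (R : Fin 3 → Subalgebra ℂ L), StdA S S' R → ∃ R', StdA S' S R' ∧ QuadPair S S' R R'

/-- QB. -/
def ST_QB : Prop := ∀ (L : Type) [Field L] [Algebra ℂ L] (S S' : Coord L)
  (R : Fin 3 → Subalgebra ℂ L), StdB S S' R → ∃ R', StdB S' S R' ∧ QuadPair S S' R R'

/-- QC. -/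
def ST_QC : Prop := ∀ (L : Type) [Field L] [Algebra ℂ L] (S S' : Coord L)
  (R : Fin 3 → Subalgebra ℂ L), StdC S S' R → ∃ R', StdC S' S R' ∧ QuadPair S S' R R'

/-- QS. The quadratic transformation in the three standard cases: the same surface, and the
classes change by `quad`. -/
def ST_QS : Prop := ∀ (L : Type) [Field L] [Algebra ℂ L] (k : ℕ) (T : PStr L (k + 3))
  (S' : Coord L),
  (StdA T.S S' (fun i => T.R (Fin.castLE (Nat.le_add_left 3 k) i)) ∨
    StdB T.S S' (fun i => T.R (Fin.castLE (Nat.le_add_left 3 k) i)) ∨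
    StdC T.S S' (fun i => T.R (Fin.castLE (Nat.le_add_left 3 k) i))) →
  ∃ T' : PStr L (k + 3), T'.S = S' ∧ T'.X = T.X ∧ ∀ v, T.Cur v → T'.cl v = quad (T.cl v)

/-- QD. The quadratic transformation at the first three points. -/
def ST_QD : Prop := ∀ (L : Type) [Field L] [Algebra ℂ L] (k : ℕ) (T : PStr L (k + 3)),
  (∀ v, T.Cur v → ip KK (T.cl v) ≤ 0) →
  (∀ v, T.Cur v → ¬ ((T.cl v).1 = 1 ∧ (T.cl v).2 0 = 1 ∧ (T.cl v).2 1 = 1 ∧ (T.cl v).2 2 = 1)) →
  ∃ T' : PStr L (k + 3), T'.X = T.X ∧ ∀ v, T.Cur v → T'.cl v = quad (T.cl v)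

/-! ### Final theorems of the block -/

/-- GM. A nef class is dominant in a suitable structure. -/
def ST_GM : Prop := ∀ (L : Type) [Field L] [Algebra ℂ L] (k : ℕ) (T : PStr L k), k ≤ 8 →
  (∀ v, T.Cur v → ip KK (T.cl v) ≤ 0) → ∀ B : Cl ℤ (Fin k),
  (∀ v, T.Cur v → 0 ≤ ip B (T.cl v)) → 0 < ip B B →
  ∃ (T' : PStr L k) (φ : Cl ℤ (Fin k) ≃+ Cl ℤ (Fin k)), T'.X = T.X ∧
    (∀ a b, ip (φ a) (φ b) = ip a b) ∧ φ KK = KK ∧ (∀ v, T.Cur v → T'.cl v = φ (T.cl v)) ∧
    Dominant (φ B)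

/-- STEP. For every set of curves `E` with `K.E = 0` there is a structure on the same surface and
`j` with `f_j.E = 0`, such that `j ≤ 2` or the curves of the set on the surface with `j` points
span the orthogonal complement of `K`; if the set contains all contracted curves outside the
divisor of poles then the state is inherited by the surface with `j` points. -/
def ST_STEP : Prop := ∀ (L : Type) [Field L] [Algebra ℂ L] (N : ℕ) (ω : Bracket L)
  (x : Fin (N + 1) → L) (k : ℕ) (T : PStr L k), State ω x T →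
  ∀ E : Set (DVal L), (∀ v ∈ E, T.Cur v ∧ ip KK (T.cl v) = 0) →
  ∃ (T' : PStr L k) (φ : Cl ℤ (Fin k) ≃+ Cl ℤ (Fin k)), T'.X = T.X ∧ State ω x T' ∧
    (∀ a b, ip (φ a) (φ b) = ip a b) ∧ φ KK = KK ∧ (∀ v, T.Cur v → T'.cl v = φ (T.cl v)) ∧
    ∃ (j : ℕ) (hj : j ≤ k), (∀ v ∈ E, ip (ff k j) (T'.cl v) = 0) ∧
      (∀ v, T'.Cur v → 0 ≤ ip (ff k j) (T'.cl v)) ∧
      (3 ≤ j → (∀ v, (T'.trunc j hj).Cur v → ip KK ((T'.trunc j hj).cl v) ≤ 0) ∧
        SpansPerp ((T'.trunc j hj).cl '' {v | v ∈ E ∧ (T'.trunc j hj).Cur v}) ∧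
        ((∀ v, T.Cur v → ω.Wt v 0 → Contracted x v → v ∈ E) → State ω x (T'.trunc j hj)))

end

end LCY
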