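import Pool.Agent.Helper11.LCY.Out2
import Pool.Agent.Helper98.LCY.LocG
import Pool.Agent.Helper81.LCY.ClD
import Pool.Agent.Helper50.LCY.TY
import Pool.Agent.Helper50.LCY.B2K
import Pool.Agent.Helper50.LCY.Div
import Pool.Agent.Helper97.LCY.C5
import Pool.Agent.Helper97.LCY.C1
import Pool.Agent.Helper97.LCY.D7
import Pool.Agent.Helper97.LCY.D0
import Pool.Agent.Helper82.LCY.Qtab
import Pool.Agent.Helper27.LCY.PG
import Pool.Agent.Helper36.LCY.SW
import Pool.Agent.Helper84.LCY.Qd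
import Pool.Agent.Helper84.LCY.Qs
import Pool.Agent.Helper84.LCY.Nc
import Pool.Agent.Helper98.LCY.Int
import Pool.Agent.Helper73.LCY.NOE
import Pool.Agent.Helper62.LCY.EXC
import Pool.Agent.Helper51.LCY.Z7
import Pool.Agent.Helper82.LCY.StepFin
import Pool.Agent.Helper82.LCY.GmGeo
import Pool.Agent.Helper97.LCY.NB
import Pool.Agent.Helper11.LCY.NA

/-!
Assembly of the block SURFACES for MP_f7e214_ag: the rows with their hypotheses discharged.
-/

namespace LCY

namespace Fin3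

theorem a5 : ST_A5 := H81.st_A5
theorem a6 : ST_A6 := H81.st_A6
theorem a7 : ST_A7 := H81.st_A7
theorem a8 : ST_A8 := H81.st_A8
theorem a9 : ST_A9 := H81.st_A9
theorem a10 : ST_A10 := H81.st_A10
theorem a13 : ST_A13 := H98.st_A13
theorem a14 : ST_A14 := H98.st_A14
theorem a15 : ST_A15 := H98.st_A15
theorem a16 : ST_A16 := H98.st_A16
theorem a17 : ST_A17 := H98.st_A17
theorem a18 : ST_A18 := H98.st_A18
theorem ty : ST_TY := H50.st_TY a17 a18
theorem b1 : ST_B1 := H81.st_B1 a16 a17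
theorem b2k : ST_B2K := H50.st_B2K a16 a17
theorem b3 : ST_B3 := H50.st_B3 a16 a17 a18 b1
theorem b4 : ST_B4 := H50.st_B4 a16 a17 a18
theorem d0 : ST_D0 := H97.st_D0 a6 a9 a10 a16 a17
theorem d7 : ST_D7 := H97.st_D7 a5 a9 a10 a16 a17 a18
theorem c1 : ST_C1 := H97.st_C1 a9 a17 d0 d7 b3
theorem c5 : ST_C5 := H97.st_C5 b1 b4 c1
theorem pg : ST_PG := H27.st_PG
theorem sw : ST_SW := H36.sw
theorem qa : ST_QA := H82.st_QA a16 a17 a18 b1 b3
theorem qb : ST_QB := H82.st_QB a16 a17 a18 b1 b3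
theorem qc : ST_QC := H82.st_QC a16 a17 a18 b1 b3
theorem qs : ST_QS := LCY.qs_main a17 a18 qa qb qc
theorem nc : ST_NC := LCY.nc_main a6 a7
theorem tc : ST_TC := H11.tc_of a17
theorem o1 : ST_OUT1 := H11.out1 pg a6 a7 a8 a15 a17 a18
theorem o2 : ST_OUT2 := H11.out2 pg a6 a7 a8 a17 a18 ty o1

theorem int : ST_INT := H98.st_INT (H51.st_BEZ a17) H73.st_NOE H62.st_EXC
theorem c3 : ST_C3 := H98.st_C3 int
theorem c4 : ST_C4 := H98.st_C4 int

theorem na : ST_NA := H11.st_NA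
theorem nb : ST_NB := H97.st_NB

theorem qd : ST_QD := LCY.qd_main a6 a7 a13 a14 a17 a18 sw na nb nc qs

theorem gm : ST_GM := H82.st_GM a13 a16 a17 a18 ty sw qd c5

theorem step : ST_STEP := H82.st_STEP a13 a16 a17 a18 ty sw qd c3 c5 tc

/-- STEP 3, without hypotheses. -/
theorem step3 : ST_STEP3 := H11.step3 step tc ty o1 o2

end Fin3

end LCY
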