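import Pool.Agent.Helper11.LCY.Asm3
import Pool.Agent.Helper98.LCY.LocC
import Pool.Agent.Helper2.LCY.E1b
import Pool.Agent.Helper62.LCY.B2

/-!
Row OUT1 of MP_f7e214_ag: the pencil of lines through the first point.
-/

open Polynomial Pool.Agent.Helper82.LCY

namespace LCY

noncomputable section

variable {L : Type} [Field L] [Algebra ℂ L]

namespace H11

theorem surf_plane {S S' : Coord L} (h : plane S' = plane S) {k : ℕ}
    (R : Fin k → Subalgebra ℂ L) (j : ℕ) : surf S' R j = surf S R j := by
  induction j with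
  | zero => exact h
  | succ j ih => simp only [surf]; rw [ih]

/-- The same structure with another coordinate system of the plane. -/
def reS {k : ℕ} (T : PStr L k) (S' : Coord L) (h : plane S' = plane T.S) : PStr L k where
  S := S'
  R := T.R
  valid := fun i => by rw [surf_plane h]; exact T.valid i

theorem reS_X {k : ℕ} (T : PStr L k) (S' : Coord L) (h : plane S' = plane T.S) :
    (reS T S' h).X = T.X := surf_plane h T.R k

theorem reS_Cur {k : ℕ} (T : PStr L k) (S' : Coord L) (h : plane S' = plane T.S) (v : DVal L) :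
    (reS T S' h).Cur v ↔ T.Cur v := by
  unfold PStr.Cur; rw [reS_X]

theorem reS_cl {k : ℕ} (T : PStr L k) (S' : Coord L) (h : plane S' = plane T.S)
    (hd : ∀ v, deg S' v = deg T.S v) (v : DVal L) : (reS T S' h).cl v = T.cl v :=
  Prod.ext (hd v) rfl

theorem reS_state {N : ℕ} {ω : Bracket L} {x : Fin (N + 1) → L} {k : ℕ} {T : PStr L k}
    (S' : Coord L) (h : plane S' = plane T.S) (hd : ∀ v, deg S' v = deg T.S v)
    (hT : State ω x T) : State ω x (reS T S' h) := by
  refine ⟨hT.le, ?_, ?_, ?_, ?_⟩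
  · intro v hv; exact hT.wt v ((reS_Cur T S' h v).1 hv)
  · intro v hv
    rw [reS_cl T S' h hd]
    exact hT.nef v ((reS_Cur T S' h v).1 hv)
  · intro v hv
    rw [reS_cl T S' h hd]
    exact hT.con v ((reS_Cur T S' h v).1 hv)
  · obtain ⟨a, f, ha, hf, e1, e2, e3⟩ := hT.sys
    exact ⟨a, f, ha, hf, fun v hv => e1 v ((reS_Cur T S' h v).1 hv), e2, e3⟩

/-- Coordinates in which a given point of the plane is the point at infinity of the second
axis. -/
theorem normal_inf (hPG : ST_PG) (S : Coord L) {R : Subalgebra ℂ L} (hR : R ∈ plane S) :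
    ∃ S0 Q : Coord L, plane S0 = plane S ∧ (∀ v, deg S0 v = deg S v) ∧ Q.loc = R ∧
      Q.x = S0.x / S0.y ∧ Q.y = S0.y⁻¹ := by
  obtain ⟨A, Q, hA, hQ, hx, hy⟩ := hR
  have hdet : (A.submatrix (Equiv.swap (0 : Fin 3) 2) id).det ≠ 0 := by
    rw [Matrix.det_permute]
    exact mul_ne_zero (by
      rcases Int.units_eq_one_or (Equiv.Perm.sign (Equiv.swap (0 : Fin 3) 2)) with h | h <;>
        rw [h] <;> norm_num) hA
  obtain ⟨S0, h1, h2, h3, h4⟩ := hPG L S _ hdet
  have r0 : (A.submatrix (Equiv.swap (0 : Fin 3) 2) id) 0 = A 2 := by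
    funext i; simp [Matrix.submatrix_apply]
  have r1 : (A.submatrix (Equiv.swap (0 : Fin 3) 2) id) 1 = A 1 := by
    funext i
    rw [Matrix.submatrix_apply, Equiv.swap_apply_of_ne_of_ne (by decide) (by decide)]
    rfl
  have r2 : (A.submatrix (Equiv.swap (0 : Fin 3) 2) id) 2 = A 0 := by
    funext i; simp [Matrix.submatrix_apply]
  rw [r0, r1] at h1
  rw [r0, r2] at h2
  have l0 := H98.lin_ne S (H98.row_ne hA 0)
  have l2 := H98.lin_ne S (H98.row_ne hA 2)
  refine ⟨S0, Q, h3, h4, hQ, ?_, ?_⟩
  · rw [hx, h1, h2]; field_simp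
  · rw [hy, h2, inv_div]

theorem isOrd_centred {R : Subalgebra ℂ L} {v : DVal L} (h : IsOrd R v) : Centred R v := by
  obtain ⟨P, rfl, hv⟩ := h
  rw [H98.centred_iff]
  have h1 : ordn (C X : ℂ[X][X]) = 1 := by
    refine H62.ordn_eq ⟨?_, (1, 0), by simp [cf], rfl⟩
    intro e he
    unfold cf at he
    rw [coeff_C] at he
    split_ifs at he with h2
    · rw [coeff_X] at he
      split_ifs at he with h3
      · omega
      · simp at he
    · simp at he
  have h2 : ordn (X : ℂ[X][X]) = 1 := by
    refine H62.ordn_eq ⟨?_, (0, 1), by simp [cf], rfl⟩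
    intro e he
    unfold cf at he
    rw [coeff_X] at he
    split_ifs at he with h2
    · omega
    · simp at he
  have h3 := hv (C X) H62.CX_ne
  have h4 := hv X X_ne_zero
  rw [ev_CX, h1] at h3
  rw [ev_X, h2] at h4
  constructor
  · rw [h3]; norm_num
  · rw [h4]; norm_num

section Hor

variable {S : Coord L} {v : DVal L}

theorem hor_x (h : Hor S.x v) : v.v S.x = 0 := by
  have := h X X_ne_zero
  rwa [aeval_X] at this

theorem hor_lin (h : Hor S.x v) {a b : ℂ} (hab : ¬ (a = 0 ∧ b = 0)) :
    v.v (algebraMap ℂ L a + algebraMap ℂ L b * S.x) = 0 := by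
  have hp : (C a + C b * X : ℂ[X]) ≠ 0 := by
    intro h0
    apply hab
    have h1 := congrArg (fun p => coeff p 0) h0
    have h2 := congrArg (fun p => coeff p 1) h0
    simp only [coeff_add, coeff_C_zero, mul_coeff_zero, coeff_X_zero, mul_zero, add_zero,
      coeff_zero] at h1
    simp only [coeff_add, coeff_C_mul, coeff_X_one, mul_one, coeff_zero] at h2
    rw [coeff_C] at h2
    simp at h2
    exact ⟨h1, h2⟩
  have := h _ hp
  simpa using this

/-- A horizontal valuation with centre at a point of the plane has its centre at the vertex of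
the pencil. -/
theorem hor_plane (hv : Hor S.x v) {Q : Coord L} (hQ : Q.loc ∈ plane S)
    (hx : Q.x = S.x / S.y) (hy : Q.y = S.y⁻¹) {R : Subalgebra ℂ L} (hR : R ∈ plane S)
    (hc : Centred R v) : R = Q.loc := by
  have sx := S.x_ne
  have sy := S.y_ne
  rcases lt_or_ge (v.v S.y) 0 with hneg | hpos
  · have hcQ : Centred Q.loc v := by
      rw [H98.centred_iff, hx, hy, v.map_div sx sy, v.map_inv sy, hor_x hv]
      constructor <;> linarith
    exact H98.sep_plane hR hQ hc hcQ.1
  · exfalso
    obtain ⟨A, Q1, hA, rfl, h1, h2⟩ := hR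
    rw [H98.centred_iff, h1, h2] at hc
    have l0 := H98.lin_ne S (H98.row_ne hA 0)
    have l1 := H98.lin_ne S (H98.row_ne hA 1)
    have l2 := H98.lin_ne S (H98.row_ne hA 2)
    rw [v.map_div l1 l0, v.map_div l2 l0] at hc
    have hint : ∀ a : Fin 3 → ℂ, v.Int (lin S a) := by
      intro a
      unfold lin
      have e1 : v.Int S.x := Or.inr (hor_x hv).ge
      have e2 : v.Int S.y := Or.inr hpos
      exact v.int_add (v.int_add (v.int_const _) (v.int_mul (v.int_const _) e1))
        (v.int_mul (v.int_const _) e2)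
    have v0 : 0 ≤ v.v (lin S (A 0)) := (hint _).resolve_left l0
    have hpos1 : v.Pos (lin S (A 1)) := Or.inr (by linarith [hc.1])
    have hpos2 : v.Pos (lin S (A 2)) := Or.inr (by linarith [hc.2])
    have key : ∀ a : Fin 3 → ℂ, a ≠ 0 → a 2 = 0 → ¬ v.Pos (lin S a) := by
      intro a ha ha2 hp
      have h3 := hp.resolve_left (H98.lin_ne S ha)
      have h4 : lin S a = algebraMap ℂ L (a 0) + algebraMap ℂ L (a 1) * S.x := by
        unfold lin; rw [ha2, map_zero, zero_mul, add_zero]
      rw [h4, hor_lin hv] at h3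
      · exact lt_irrefl _ h3
      · rintro ⟨h5, h6⟩
        apply ha
        funext i
        fin_cases i
        · exact h5
        · exact h6
        · exact ha2
    by_cases h12 : A 1 2 = 0
    · exact key (A 1) (H98.row_ne hA 1) h12 hpos1
    · have hne : (A 2 2) • A 1 + (-(A 1 2)) • A 2 ≠ 0 := by
        intro h0
        have hli : LinearIndependent ℂ A.row := Matrix.linearIndependent_rows_of_det_ne_zero hA
        have h3 := Fintype.linearIndependent_iff.1 hli ![0, A 2 2, -(A 1 2)] (by
          rw [Fin.sum_univ_three]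
          simp only [Matrix.cons_val_zero, Matrix.cons_val_one, Matrix.cons_val_two,
            Matrix.head_cons, Matrix.tail_cons, zero_smul, zero_add]
          exact h0) 2
        simp at h3
        exact h12 h3
      refine key _ hne ?_ ?_
      · simp [mul_comm]
      · rw [H98.lin_add, H98.lin_smul, H98.lin_smul]
        exact v.pos_add (by rw [mul_comm]; exact v.pos_mul_int hpos1 (v.int_const _))
          (by rw [mul_comm]; exact v.pos_mul_int hpos2 (v.int_const _))

/-- A horizontal valuation has no centre on a surface on which the vertex of the pencil is blown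
up. -/
theorem hor_surf (hv : Hor S.x v) {k : ℕ} (hk : 0 < k) {R : Fin k → Subalgebra ℂ L}
    (hval : ∀ i : Fin k, R i ∈ surf S R i) {Q : Coord L} (hQ : Q.loc = R ⟨0, hk⟩)
    (hx : Q.x = S.x / S.y) (hy : Q.y = S.y⁻¹) (j : ℕ) :
    ∀ R' ∈ surf S R j, Centred R' v → j = 0 ∧ R' = Q.loc := by
  have sx := S.x_ne
  have sy := S.y_ne
  induction j with
  | zero =>
    intro R' hR' hc
    refine ⟨rfl, hor_plane hv ?_ hx hy hR' hc⟩
    rw [hQ]
    exact hval ⟨0, hk⟩
  | succ j ih =>
    intro R' hR' hc
    exfalso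
    by_cases hj : j < k
    · rw [surf, dif_pos hj] at hR'
      rcases hR' with h | h
      · obtain ⟨h1, h2⟩ := ih R' h.1 hc
        subst h1
        exact h.2 (h2.trans hQ)
      · obtain ⟨P, hP⟩ := H98.surf_coord (hval ⟨j, hj⟩)
        have hn : Next (R ⟨j, hj⟩) R' := h
        rw [← hP] at hn
        obtain ⟨o, rfl⟩ := H98.next_iff.1 hn
        have hc2 := H98.centred_of_next hn hc
        rw [hP] at hc2
        obtain ⟨h1, h2⟩ := ih _ (hval ⟨j, hj⟩) hc2
        subst h1
        have hn2 : Next Q.loc (P.st o).loc := by rw [← h2]; exact h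
        obtain ⟨o', h3⟩ := H98.next_iff.1 hn2
        rw [h3, H98.centred_iff] at hc
        cases o' with
        | some c =>
          have h4 := hc.2
          rw [Q.st_some_y, hx, hy] at h4
          have h5 : S.y⁻¹ / (S.x / S.y) - algebraMap ℂ L c =
              (algebraMap ℂ L 1 + algebraMap ℂ L (-c) * S.x) / S.x := by
            rw [map_one, map_neg]; field_simp; ring
          have h6 : algebraMap ℂ L 1 + algebraMap ℂ L (-c) * S.x ≠ 0 := by
            intro h0
            have h7 := S.inj (C (C 1 + C (-c) * X)) (by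
              rw [ev_C]; simpa using h0)
            rw [C_eq_zero] at h7
            have h8 := congrArg (fun p => coeff p 0) h7
            simp at h8
          rw [h5, v.map_div h6 sx, hor_lin hv (by simp), hor_x hv] at h4
          exact lt_irrefl _ h4
        | none =>
          have h4 := hc.2
          rw [Q.st_none_y, hx, hy] at h4
          have h5 : S.x / S.y / S.y⁻¹ = S.x := by field_simp
          rw [h5, hor_x hv] at h4
          exact lt_irrefl _ h4
    · rw [surf, dif_neg hj] at hR'
      obtain ⟨h1, -⟩ := ih R' hR' hc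
      omega

end Hor

theorem isInf_x {S : Coord L} {v : DVal L} (h : IsInf S v) : v.v S.x < 0 := by
  have h1 := h (C X) H62.CX_ne
  rw [ev_CX] at h1
  have h2 : 1 ≤ tdeg (C X : ℂ[X][X]) := by
    have := H62.le_tdeg (f := (C X : ℂ[X][X])) (e := (1, 0)) (by simp [cf])
    simpa using this
  rw [h1]
  omega

/-- The multiplicity of a plane curve that is not a line of the pencil at the vertex is less than
its degree. -/
theorem mul_lt (h6 : ST_A6) (h7 : ST_A7) {S Q : Coord L} (hx : Q.x = S.x / S.y)
    (hy : Q.y = S.y⁻¹) {g : ℂ[X][X]} {v : DVal L} (hg : IsAdic S g v)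
    (hht : Hor S.x v) (ht : Through Q.loc v) : mul Q.loc v < tdeg g := by
  have sx := S.x_ne
  have sy := S.y_ne
  have hone : v.v (ev S.x S.y g) = 1 := by
    have := hg.2 1 1 (fun h => hg.1.not_isUnit (isUnit_of_dvd_one h))
    simpa using this
  have hgne : g ≠ 0 := hg.1.ne_zero
  -- the degree in y is positive
  obtain ⟨e0, he0, he1⟩ : ∃ e, cf g e ≠ 0 ∧ 1 ≤ e.2 := by
    by_contra hcon
    push Not at hcon
    have h1 : g = C (g.coeff 0) := by
      apply cf_ext
      intro e
      by_cases h2 : e.2 = 0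
      · unfold cf; rw [h2]; simp
      · have h3 : cf g e = 0 := by
          by_contra h4
          have := hcon e h4
          omega
        rw [h3]
        unfold cf
        rw [coeff_C_of_ne_zero h2]; simp
    have h2 : g.coeff 0 ≠ 0 := by
      intro h0; rw [h0, C_0] at h1; exact hgne h1
    rw [h1, ev_C, hht _ h2] at hone
    exact absurd hone (by norm_num)
  -- the value of y is zero
  have hyint : 0 ≤ v.v Q.y := (ht.1 _ (H98.mx_loc (H98.mx_y Q))).resolve_left Q.y_ne
  have hyn : 0 ≤ v.v S.y := by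
    have key : ∀ (n : ℕ) (f : ℂ[X][X]), ¬ g ∣ f → 0 ≤ v.v (ev S.x S.y (g ^ n * f)) := by
      intro n f hf; rw [hg.2 n f hf]; exact Int.natCast_nonneg _
    obtain ⟨n, f, hf, hX⟩ : ∃ (n : ℕ) (f : ℂ[X][X]), ¬ g ∣ f ∧ (X : ℂ[X][X]) = g ^ n * f := by
      have hfin : FiniteMultiplicity g (X : ℂ[X][X]) :=
        FiniteMultiplicity.of_not_isUnit hg.1.not_isUnit X_ne_zero
      obtain ⟨f, hf1, hf2⟩ := hfin.exists_eq_pow_mul_and_not_dvd
      exact ⟨_, f, hf2, hf1⟩
    have := key n f hf
    rw [← hX, ev_X] at this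
    exact this
  have hy0 : v.v S.y = 0 := by
    rw [hy, v.map_inv sy] at hyint
    linarith
  set d := tdeg g with hd
  obtain ⟨f', hf1, -, hf3⟩ := toric g (fun e => (e.1, d - e.1 - e.2)) (by
    intro e e' he he' h
    have a1 := H62.le_tdeg he
    have a2 := H62.le_tdeg he'
    simp only [Prod.mk.injEq] at h
    refine Prod.ext h.1 ?_
    have := h.2
    rw [h.1] at this a1
    omega)
  have hev := hf3 L S.x S.y Q.x Q.y (S.y⁻¹ ^ d) (by
    intro e he
    have a1 := H62.le_tdeg he
    rw [hx, hy]
    have a2 : d = e.1 + e.2 + (d - e.1 - e.2) := by omega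
    conv_lhs => rw [a2]
    rw [pow_add, pow_add, div_pow, inv_pow, inv_pow, inv_pow]
    field_simp)
  have hf'ne : f' ≠ 0 := by
    intro h0
    have := hf1 e0 he0
    rw [h0] at this
    exact he0 (by rw [← this]; simp [cf])
  have hval : v.v (ev Q.x Q.y f') = 1 := by
    rw [hev, v.map_mul _ _ (pow_ne_zero _ (inv_ne_zero sy)) (S.ne hgne), v.map_pow
      (inv_ne_zero sy), v.map_inv sy, hy0, hone]
    simp
  obtain ⟨g2, hg2, hg20⟩ := (h6 L Q v).1 ht
  rw [(h7 L Q v g2 hg2 hg20).1]
  have hdvd : g2 ∣ f' := by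
    by_contra h
    have := hg2.2 0 f' h
    rw [pow_zero, one_mul, hval] at this
    norm_num at this
  obtain ⟨q, hq⟩ := hdvd
  have hqne : q ≠ 0 := by rintro rfl; rw [mul_zero] at hq; exact hf'ne hq
  have h8 : ordn f' = ordn g2 + ordn q := by
    rw [hq]; exact H62.ordn_mul hg2.1.ne_zero hqne
  have h9 : ordn f' ≤ e0.1 + (d - e0.1 - e0.2) := by
    refine Nat.sInf_le ⟨(e0.1, d - e0.1 - e0.2), ?_, rfl⟩
    have := hf1 e0 he0
    show cf f' (e0.1, d - e0.1 - e0.2) ≠ 0
    rw [this]; exact he0
  have h10 := H62.le_tdeg he0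
  have h11 : ordn g2 < d := by omega
  exact_mod_cast h11

/-- Row OUT1. -/
theorem out1 (hPG : ST_PG) (h6 : ST_A6) (h7 : ST_A7) (h8 : ST_A8) (h15 : ST_A15)
    (h17 : ST_A17) (h18 : ST_A18) : ST_OUT1 := by
  intro L _ _ N ω x hA k T hk hT hcon
  obtain ⟨S0, Q, hpl, hdeg, hQ, hx, hy⟩ := normal_inf hPG T.S (T.valid ⟨0, hk⟩)
  set T0 := reS T S0 hpl with hT0
  have hT0s : State ω x T0 := reS_state S0 hpl hdeg hT
  refine ⟨_, S0.y, H2.isRuling S0, ?_⟩
  intro v n hv hn
  have hh := H2.hor_of_horiz S0 hv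
  have hsurf := hor_surf hh hk (R := T0.R) T0.valid (Q := Q) hQ hx hy
  rcases h15 L k T0 v with hcur | ⟨R, hR, hc⟩
  · rcases hT0s.wt v hcur n hn with h0 | h0
    · right
      refine ⟨h0, ?_⟩
      intro hcontr
      rw [h0] at hn
      have h1 := hcon v ((reS_Cur T S0 hpl v).1 hcur) hn hcontr
      have h2 : deg S0 v = mul (T.R ⟨0, hk⟩) v := by
        rw [hdeg]; exact h1
      rcases (h17 L k T0 v).1 hcur with (h3 | ⟨g, hg⟩) | ⟨i, hi⟩
      · have := isInf_x h3
        have h4 : v.v S0.x = 0 := hor_x hh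
        have h5 : v.v S0.x < 0 := this
        omega
      · have h4 := h8 L S0 v g hg
        rw [h4.1] at h2
        by_cases ht : Through Q.loc v
        · have h5 := mul_lt h6 h7 hx hy hg hh ht
          rw [hQ, ← h2] at h5
          exact lt_irrefl _ h5
        · rw [← hQ] at h2
          unfold mul at h2
          have h9 := h4.2.1
          split_ifs at h2 <;> omega
      · have h4 := h18 L k T0 i v hi
        have h5 : deg S0 v = 0 := h4.2.1
        rw [h5] at h2
        by_cases hi0 : i = ⟨0, hk⟩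
        · rw [hi0] at hi
          have h6 : IsOrd (T.R ⟨0, hk⟩) v := hi
          unfold mul at h2
          rw [if_pos h6] at h2
          norm_num at h2
        · have h6 := hsurf (i : ℕ) (T0.R i) (T0.valid i) (isOrd_centred hi)
          exact hi0 (Fin.ext h6.1)
    · exact Or.inl h0
  · exfalso
    have := (hsurf k R hR hc).1
    omega

end H11

end

end LCY
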