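import Pool.Agent.Helper11.LCY.Out1
import Pool.Agent.Helper11.LCY.ConeF
import Pool.Agent.Helper48.LCY.Red
import Pool.Agent.Helper98.LCY.LocD
import Pool.Agent.Helper51.LCY.P6
import Pool.Agent.Helper2.LCY.E3

/-!
Row OUT2 of MP_f7e214_ag: the case of the class `2 H - e_1 - e_2`.
-/

open Polynomial Pool.Agent.Helper82.LCY

namespace LCY

noncomputable section

variable {L : Type} [Field L] [Algebra ℂ L]

namespace H11

/-- The value of the bracket of the coordinates at the order valuation. -/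
theorem ord_br {N : ℕ} {ω : Bracket L} {x : Fin (N + 1) → L} (hA : Adm ω x) (V : Coord L)
    {k : ℤ} (hk : ω.Wt V.ord k) : V.ord.v (ω.br V.x V.y) = 1 - k := by
  have hwp : WtProp ω V.ord k := wtProp hA.trdeg hA.fg ω _ hk
  have h1 : V.ord.v (ω.br (V.st none).x (V.st none).y) = -k :=
    wt_pval (V.st none) H62.prime_CX hwp
  have h2 : (V.st none).x = V.y := V.st_none_x
  have hy := V.y_ne
  have hb := H62.br_ne ω V
  have h3 : V.ord.v ((V.st none).x⁻¹ * ω.br V.x V.y) = -1 + V.ord.v (ω.br V.x V.y) := by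
    rw [h2, V.ord.map_mul _ _ (inv_ne_zero hy) hb, V.ord.map_inv hy, H62.ord_y]
  rcases H62.br_st ω V none with h4 | h4
  · rw [h4, h3] at h1; linarith
  · rw [h4, V.ord.map_neg (mul_ne_zero (inv_ne_zero (h2 ▸ hy)) hb), h3] at h1; linarith

/-- The order valuation at the point at infinity of the second axis: minus the degree
in `y`. -/
theorem ord0_ev {S V : Coord L} (hx : V.x = S.x / S.y) (hy : V.y = S.y⁻¹) {f : ℂ[X][X]}
    (hf : f ≠ 0) : (∀ e, cf f e ≠ 0 → V.ord.v (ev S.x S.y f) ≤ -(e.2 : ℤ)) ∧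
      ∃ e, cf f e ≠ 0 ∧ V.ord.v (ev S.x S.y f) = -(e.2 : ℤ) := by
  have sx := S.x_ne
  have sy := S.y_ne
  have vx := V.x_ne
  have vy := V.y_ne
  set D := tdeg f with hD
  have hle : ∀ e, cf f e ≠ 0 → e.1 + e.2 ≤ D := fun e he => H62.le_tdeg he
  obtain ⟨f', h1, h2, h3⟩ := toricZ f 1 (-1) 0 (-1) 0 D (Or.inr (by norm_num)) (by
    intro e he
    have := hle e he
    constructor
    · omega
    · omega)
  have ex : V.x ^ (1 : ℤ) * V.y ^ (-1 : ℤ) = S.x := by
    rw [hx, hy, zpow_one, zpow_neg_one, inv_inv]; field_simp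
  have ey : V.x ^ (0 : ℤ) * V.y ^ (-1 : ℤ) = S.y := by
    rw [hy, zpow_zero, zpow_neg_one, inv_inv, one_mul]
  have h4 := h3 L V.x V.y vx vy
  rw [ex, ey, zpow_zero, one_mul, zpow_natCast] at h4
  have hf' : f' ≠ 0 := by
    obtain ⟨e, he⟩ := exists_cf_ne hf
    obtain ⟨e', -, -, h5⟩ := h1 e he
    rintro rfl
    exact he (by rw [← h5]; simp [cf])
  have h5 := V.ord_ev (H62.oe_ordn hf')
  rw [h4, V.ord.map_mul _ _ (pow_ne_zero _ vy) (S.ne hf), V.ord.map_pow vy, H62.ord_y] at h5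
  have h6 := H62.oe_ordn hf'
  constructor
  · intro e he
    obtain ⟨e', a1, a2, a3⟩ := h1 e he
    have h7 : ordn f' ≤ e'.1 + e'.2 := Nat.sInf_le ⟨e', by rw [a3]; exact he, rfl⟩
    omega
  · obtain ⟨-, e', he', h7⟩ := h6
    obtain ⟨e, he, a1, a2⟩ := h2 e' he'
    refine ⟨e, he, ?_⟩
    omega

/-- The order valuation at the infinitely near point in the direction of the line at
infinity. -/
theorem ord1_ev {S V : Coord L} (hx : V.x = S.x / S.y) (hy : V.y = S.x⁻¹) {f : ℂ[X][X]}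
    (hf : f ≠ 0) : ∀ e, cf f e ≠ 0 → V.ord.v (ev S.x S.y f) ≤ -((e.1 : ℤ) + 2 * e.2) := by
  have sx := S.x_ne
  have sy := S.y_ne
  have vx := V.x_ne
  have vy := V.y_ne
  set D := tdeg f with hD
  have hle : ∀ e, cf f e ≠ 0 → e.1 + e.2 ≤ D := fun e he => H62.le_tdeg he
  obtain ⟨f', h1, h2, h3⟩ := toricZ f 0 (-1) (-1) (-1) D D (Or.inr (by norm_num)) (by
    intro e he
    have := hle e he
    constructor
    · omega
    · omega)
  have ex : V.x ^ (0 : ℤ) * V.y ^ (-1 : ℤ) = S.x := by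
    rw [hy, zpow_zero, zpow_neg_one, inv_inv, one_mul]
  have ey : V.x ^ (-1 : ℤ) * V.y ^ (-1 : ℤ) = S.y := by
    rw [hx, hy, zpow_neg_one, zpow_neg_one]; field_simp
  have h4 := h3 L V.x V.y vx vy
  rw [ex, ey, zpow_natCast, zpow_natCast] at h4
  have hf' : f' ≠ 0 := by
    obtain ⟨e, he⟩ := exists_cf_ne hf
    obtain ⟨e', -, -, h5⟩ := h1 e he
    rintro rfl
    exact he (by rw [← h5]; simp [cf])
  have h5 := V.ord_ev (H62.oe_ordn hf')
  rw [h4, V.ord.map_mul _ _ (mul_ne_zero (pow_ne_zero _ vx) (pow_ne_zero _ vy)) (S.ne hf),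
    V.ord.map_mul _ _ (pow_ne_zero _ vx) (pow_ne_zero _ vy), V.ord.map_pow vx,
    V.ord.map_pow vy, H62.ord_y, H62.ord_x] at h5
  intro e he
  obtain ⟨e', a1, a2, a3⟩ := h1 e he
  have h7 : ordn f' ≤ e'.1 + e'.2 := Nat.sInf_le ⟨e', by rw [a3]; exact he, rfl⟩
  omega

theorem br0 (ω : Bracket L) {S V : Coord L} (hx : V.x = S.x / S.y) (hy : V.y = S.y⁻¹) :
    ω.br V.x V.y = -(ω.br S.x S.y / S.y ^ 3) := by
  have sx := S.x_ne
  have sy := S.y_ne
  rw [hx, hy, div_eq_mul_inv, ω.mul_left, ω.alt, ω.inv_right sy]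
  field_simp
  ring

theorem br1 (ω : Bracket L) {S V : Coord L} (hx : V.x = S.x / S.y) (hy : V.y = S.x⁻¹) :
    ω.br V.x V.y = -(ω.br S.x S.y / (S.x * S.y ^ 2)) := by
  have sx := S.x_ne
  have sy := S.y_ne
  rw [hx, hy, div_eq_mul_inv, ω.mul_left, ω.inv_right sx, ω.inv_right sx, ω.alt,
    ω.inv_left sy, ω.skew S.y S.x]
  field_simp
  ring

/-- Coordinates in which a point of the plane and a direction are the point at infinity of the
second axis and the line at infinity. -/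
theorem normal_dir (hPG : ST_PG) (S : Coord L) {R R' : Subalgebra ℂ L} (hR : R ∈ plane S)
    (hn : Next R R') : ∃ S1 Q V : Coord L, plane S1 = plane S ∧ (∀ v, deg S1 v = deg S v) ∧
      Q.loc = R ∧ Q.x = S1.x / S1.y ∧ Q.y = S1.y⁻¹ ∧ V.loc = R' ∧ V.x = S1.x / S1.y ∧
      V.y = S1.x⁻¹ := by
  obtain ⟨S0, Q, hpl, hdeg, rfl, hx, hy⟩ := normal_inf hPG S hR
  have s0x := S0.x_ne
  have s0y := S0.y_ne
  have q0x := Q.x_ne
  have q0y := Q.y_ne
  obtain ⟨o, rfl⟩ := H98.next_iff.1 hn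
  -- the general second change
  have key : ∀ d : ℂ, (∀ W : Coord L, W.loc = Q.loc → W.x = Q.y →
      W.y = Q.x - algebraMap ℂ L d * Q.y → (W.st (some 0)).loc = (Q.st o).loc) →
      ∃ S1 Q1 V : Coord L, plane S1 = plane S ∧ (∀ v, deg S1 v = deg S v) ∧
        Q1.loc = Q.loc ∧ Q1.x = S1.x / S1.y ∧ Q1.y = S1.y⁻¹ ∧ V.loc = (Q.st o).loc ∧
        V.x = S1.x / S1.y ∧ V.y = S1.x⁻¹ := by
    intro d hd
    obtain ⟨S1, h1, h2, h3, h4⟩ := hPG L S0 !![-d, 1, 0; 1, 0, 0; 0, 0, 1] (by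
      rw [Matrix.det_fin_three]; simp)
    have l0 : lin S0 (!![-d, 1, 0; 1, 0, 0; 0, 0, 1] 0) = S0.x - algebraMap ℂ L d := by
      unfold lin; simp; ring
    have l1 : lin S0 (!![-d, 1, 0; 1, 0, 0; 0, 0, 1] 1) = 1 := by
      unfold lin; simp
    have l2 : lin S0 (!![-d, 1, 0; 1, 0, 0; 0, 0, 1] 2) = S0.y := by
      unfold lin; simp
    rw [l1, l0] at h1
    rw [l2, l0] at h2
    have hne : S0.x - algebraMap ℂ L d ≠ 0 := by
      intro h0
      rw [h0, div_zero] at h1
      exact S1.x_ne h1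
    obtain ⟨W0, w1, w2⟩ := Q.tor 0 1 1 0 (Or.inr (by norm_num))
    rw [zpow_zero, zpow_one, one_mul] at w1
    rw [zpow_zero, zpow_one, mul_one] at w2
    obtain ⟨W, w3, w4⟩ := H62.exists_shear W0 d
    have wx : W.x = Q.y := by rw [w3, w1]
    have wy : W.y = Q.x - algebraMap ℂ L d * Q.y := by rw [w4, w1, w2]
    have wl : W.loc = Q.loc := by rw [H62.shear_loc w3 w4, H62.swap_loc w1 w2]
    refine ⟨S1, W, W.st (some 0), h3.trans hpl, fun v => (h4 v).trans (hdeg v), wl, ?_, ?_,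
      hd W wl wx wy, ?_, ?_⟩
    · rw [wx, hy, h1, h2]; field_simp
    · rw [wy, hx, hy, h2]; field_simp
    · rw [W.st_some_x, wx, hy, h1, h2]; field_simp
    · rw [W.st_some_y, wx, wy, hx, hy, h1, map_zero]; field_simp; ring
  cases o with
  | none =>
    refine key 0 ?_
    intro W _ wx wy
    refine H62.loc_congr ?_ ?_
    · rw [W.st_some_x, Q.st_none_x, wx]
    · rw [W.st_some_y, Q.st_none_y, wx, wy, map_zero]; ring
  | some c =>
    by_cases hc : c = 0
    · subst hc
      refine ⟨S0, Q, Q.st (some 0), hpl, hdeg, rfl, hx, hy, rfl, ?_, ?_⟩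
      · rw [Q.st_some_x, hx]
      · rw [Q.st_some_y, hx, hy, map_zero]; field_simp; ring
    · refine key c⁻¹ ?_
      intro W wl wx wy
      obtain ⟨A, a1, a2⟩ := H62.exists_shear Q c
      have hc' : algebraMap ℂ L c ≠ 0 := by simpa using hc
      have h5 : (A.st (some 0)).loc = (Q.st (some c)).loc := by
        refine H62.loc_congr ?_ ?_
        · rw [A.st_some_x, Q.st_some_x, a1]
        · rw [A.st_some_y, Q.st_some_y, a1, a2, map_zero]; field_simp; ring
      rw [← h5]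
      refine (H62.st_eq (b := -c) ?_ (by simpa using hc) ?_).symm
      · rw [H62.shear_loc a1 a2, wl]
      · left
        rw [a2, wy, map_neg, map_inv₀]
        field_simp
        ring

/-- A place of an irreducible polynomial is its valuation. -/
theorem place_adic {P : Coord L} {g : ℂ[X][X]} {v : DVal L} (hg : Irreducible g)
    (h : IsPlaceOf P g v) : IsAdic P g v := by
  have hgne := P.ne hg.ne_zero
  have key : ∀ f : ℂ[X][X], f ≠ 0 → ∃ n : ℕ, v.v (ev P.x P.y f) = n * v.v (ev P.x P.y g) := by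
    intro f hf
    obtain ⟨f', hf', hdv⟩ :=
      (FiniteMultiplicity.of_prime_left hg.prime hf).exists_eq_pow_mul_and_not_dvd
    refine ⟨multiplicity g f, ?_⟩
    have hf'ne : f' ≠ 0 := by rintro rfl; exact hdv (dvd_zero _)
    conv_lhs => rw [hf']
    rw [map_mul, map_pow, v.map_mul _ _ (pow_ne_zero _ hgne) (P.ne hf'ne), v.map_pow hgne,
      h.2 f' hdv, add_zero]
  have hone : v.v (ev P.x P.y g) = 1 := by
    obtain ⟨π, hπ, hπ1⟩ := v.exists_unif
    obtain ⟨⟨f, k⟩, hf, hk, hfk⟩ := H62.rep P hπ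
    obtain ⟨a, ha⟩ := key f hf
    obtain ⟨b, hb⟩ := key k hk
    rw [hfk, v.map_div (P.ne hf) (P.ne hk), ha, hb, ← sub_mul] at hπ1
    have h1 : v.v (ev P.x P.y g) ∣ 1 := ⟨(a : ℤ) - b, by rw [mul_comm]; exact hπ1.symm⟩
    have h2 := h.1
    have h3 := Int.le_of_dvd one_pos h1
    omega
  refine ⟨hg, ?_⟩
  intro n f hf
  have hfne : f ≠ 0 := by rintro rfl; exact hf (dvd_zero _)
  rw [map_mul, map_pow, v.map_mul _ _ (pow_ne_zero _ hgne) (P.ne hfne), v.map_pow hgne,
    h.2 f hf, hone, add_zero, mul_one]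

theorem cx_dvd_iff {f : ℂ[X][X]} : C X ∣ f ↔ ∀ j, cf f (0, j) = 0 := by
  rw [C_dvd_iff_dvd_coeff]
  refine forall_congr' fun j => ?_
  rw [X_dvd_iff]
  rfl

/-- The place of the first axis in the coordinates `(x, 1 / y)`. -/
theorem place_inv {P Q : Coord L} (hx : Q.x = P.x) (hy : Q.y = P.y⁻¹) {v : DVal L}
    (h : IsPlaceOf P (C X) v) : IsPlaceOf Q (C X) v := by
  have px := P.x_ne
  have py := P.y_ne
  refine ⟨by rw [ev_CX, hx, ← ev_CX P.x P.y]; exact h.1, ?_⟩
  intro g hg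
  have hgne : g ≠ 0 := by rintro rfl; exact hg (dvd_zero _)
  have hvy : v.v P.y = 0 := by
    have := h.2 X (by
      rw [cx_dvd_iff]
      intro h1
      have := h1 1
      simp [cf] at this)
    rwa [ev_X] at this
  obtain ⟨f', h1, -, h3⟩ := toricZ g 1 0 0 (-1) 0 (tdeg g) (Or.inr (by norm_num)) (by
    intro e he
    have := H62.le_tdeg he
    constructor
    · omega
    · omega)
  have h4 := h3 L P.x P.y px py
  have e1 : P.x ^ (1 : ℤ) * P.y ^ (0 : ℤ) = Q.x := by rw [hx, zpow_one, zpow_zero, mul_one]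
  have e2 : P.x ^ (0 : ℤ) * P.y ^ (-1 : ℤ) = Q.y := by
    rw [hy, zpow_zero, zpow_neg_one, one_mul]
  rw [e1, e2, zpow_zero, one_mul, zpow_natCast] at h4
  have h5 := h.2 f' (by
    rw [cx_dvd_iff]
    intro h6
    apply hg
    rw [cx_dvd_iff]
    intro j
    by_contra hj
    obtain ⟨e', a1, a2, a3⟩ := h1 (0, j) hj
    have : e' = (0, e'.2) := Prod.ext (by simp at a1; exact a1) rfl
    rw [this, h6] at a3
    exact hj a3.symm)
  rw [h4, v.map_mul _ _ (pow_ne_zero _ py) (Q.ne hgne), v.map_pow py, hvy, mul_zero,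
    zero_add] at h5
  exact h5

/-- The place of the line `x = ∞` of the cone. -/
theorem place_cone {S P' V : Coord L} (hx' : P'.x = S.x⁻¹) (hy' : P'.y = S.y / S.x ^ 2)
    (hx : V.x = S.x / S.y) (hy : V.y = S.x⁻¹) {v : DVal L} (h : IsPlaceOf P' (C X) v) :
    v.Same V.ord := by
  have sx := S.x_ne
  have sy := S.y_ne
  have h1 : IsPlaceOf (V.st none) (C X) v := by
    refine place_inv (P := P') ?_ ?_ h
    · rw [V.st_none_x, hy, hx']
    · rw [V.st_none_y, hy, hx, hy']; field_simp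
  exact H98.adic_ord (place_adic H62.prime_CX.irreducible h1)

theorem int_same {v w : DVal L} (h : v.Same w) {z : L} (hz : v.Int z) : w.Int z := by
  rcases hz with h0 | h0
  · exact Or.inl h0
  · by_cases hz0 : z = 0
    · exact Or.inl hz0
    · exact Or.inr (by rw [← h z hz0]; exact h0)

theorem pos_same {v w : DVal L} (h : v.Same w) {z : L} (hz : v.Pos z) : w.Pos z := by
  rcases hz with h0 | h0
  · exact Or.inl h0
  · by_cases hz0 : z = 0
    · exact Or.inl hz0
    · exact Or.inr (by rw [← h z hz0]; exact h0)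

theorem contracted_same {N : ℕ} {x : Fin (N + 1) → L} {v w : DVal L} (h : v.Same w)
    (hc : Contracted x v) : Contracted x w := by
  intro i hi hint j
  obtain ⟨c, h1⟩ := hc i hi (fun j => int_same (H98.same_symm h) (hint j)) j
  exact ⟨c, pos_same h h1⟩

/-- A curve of the affine plane that is not horizontal does not pass through the direction of
the line at infinity. -/
theorem not_through_dir {S V : Coord L} (hy : V.y = S.x⁻¹) {g : ℂ[X][X]} {v : DVal L}
    (hg : IsAdic S g v) (hh : ¬ Hor S.x v) : ¬ Through V.loc v := by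
  intro ht
  unfold Hor at hh
  push Not at hh
  obtain ⟨p, hp, hvp⟩ := hh
  have hCp : (C p : ℂ[X][X]) ≠ 0 := by rwa [Ne, C_eq_zero]
  have hd : g ∣ C p := by
    by_contra h
    have := H98.adic_zero hg h
    rw [ev_C] at this
    exact hvp this
  have hdeg : g.natDegree = 0 := by
    have := natDegree_le_of_dvd hd hCp
    rw [natDegree_C] at this
    omega
  obtain ⟨s, rfl⟩ := natDegree_eq_zero.1 hdeg
  have hs0 : s ≠ 0 := by rintro rfl; rw [C_0] at hg; exact hg.1.ne_zero rfl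
  have hsu : ¬ IsUnit s := fun h => hg.1.not_isUnit (isUnit_C.2 h)
  have hsdeg : s.degree ≠ 0 := by
    intro h
    exact hsu (isUnit_iff_degree_eq_zero.2 h)
  obtain ⟨c, hc⟩ := IsAlgClosed.exists_root s hsdeg
  have hirr : Irreducible s := by
    have h1 := hg.1.prime
    have h2 : Prime s := by
      rwa [prime_C_iff] at h1
    exact h2.irreducible
  have hsd : s ∣ X - C c :=
    (irreducible_X_sub_C c).dvd_symm hirr (dvd_iff_isRoot.2 hc)
  have hpos : 0 < v.v (S.x - algebraMap ℂ L c) := by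
    have h1 : ev S.x S.y (C (X - C c)) = S.x - algebraMap ℂ L c := by
      rw [ev_C, map_sub, aeval_X, aeval_C]
    rw [← h1]
    exact (H98.adic_pos_iff hg (by rw [Ne, C_eq_zero]; exact X_sub_C_ne_zero c)).2
      (map_dvd (C : ℂ[X] →+* ℂ[X][X]) hsd)
  have sx := S.x_ne
  have hne : S.x - algebraMap ℂ L c ≠ 0 := by
    intro h0
    have h1 : ev S.x S.y (C (X - C c)) = 0 := by rw [ev_C, map_sub, aeval_X, aeval_C, h0]
    exact S.ne (f := C (X - C c)) (by rw [Ne, C_eq_zero]; exact X_sub_C_ne_zero c) h1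
  have hmem : (S.x - algebraMap ℂ L c)⁻¹ ∈ V.loc := by
    refine ⟨X, 1 - C (C c) * X, by simp [cf], ?_⟩
    rw [map_sub, map_one, map_mul, ev_X, ev_CC, hy]
    have h1 : (1 : L) - algebraMap ℂ L c * S.x⁻¹ = (S.x - algebraMap ℂ L c) * S.x⁻¹ := by
      field_simp
    rw [h1]
    field_simp
  have h2 := (ht.1 _ hmem).resolve_left (inv_ne_zero hne)
  rw [v.map_inv hne] at h2
  omega

theorem through_of_mul_pos {R : Subalgebra ℂ L} {v : DVal L} (h : 0 < mul R v) :
    Through R v := by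
  by_contra hn
  unfold mul at h
  rw [if_neg hn] at h
  split_ifs at h <;> omega

/-- The polynomial of the boundary of the cone. -/
theorem shape {F : ℂ[X][X]} (hS : ∀ e, cf F e ≠ 0 → e.2 ≤ 2 ∧ e.1 + 2 * e.2 ≤ 4) :
    F = C (C (cf F (0, 2))) * X ^ 2 + C (F.coeff 1) * X + C (F.coeff 0) ∧
      (F.coeff 1).natDegree ≤ 2 ∧ (F.coeff 0).natDegree ≤ 4 := by
  refine ⟨?_, ?_, ?_⟩
  · refine Polynomial.ext fun j => ?_
    rw [coeff_add, coeff_add, coeff_C_mul, coeff_C_mul, coeff_C, coeff_X, coeff_X_pow]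
    rcases Nat.lt_or_ge 2 j with hj | hj
    · rw [if_neg (by omega), if_neg (by omega), if_neg (by omega)]
      simp only [mul_zero, add_zero]
      refine Polynomial.ext fun i => ?_
      by_contra hne
      have := (hS (i, j) (by rwa [coeff_zero] at hne)).1
      dsimp only at this
      omega
    · interval_cases j
      · simp
      · simp
      · simp only [OfNat.ofNat_ne_zero, if_false, OfNat.one_ne_ofNat, if_true, mul_zero, mul_one,
          add_zero]
        refine Polynomial.ext fun i => ?_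
        by_cases hi : i = 0
        · subst hi
          rw [coeff_C_zero]
          rfl
        · rw [coeff_C, if_neg hi]
          by_contra hne
          have := (hS (i, 2) hne).2
          dsimp only at this
          omega
  · rw [natDegree_le_iff_coeff_eq_zero]
    intro i hi
    by_contra hne
    have := (hS (i, 1) hne).2
    dsimp only at this
    omega
  · rw [natDegree_le_iff_coeff_eq_zero]
    intro i hi
    by_contra hne
    have := (hS (i, 0) hne).2
    dsimp only at this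
    omega

/-- Row OUT2. -/
theorem out2 (hPG : ST_PG) (h6 : ST_A6) (h7 : ST_A7) (h8 : ST_A8) (h17 : ST_A17)
    (h18 : ST_A18) (hTY : ST_TY) (hO1 : ST_OUT1) : ST_OUT2 := by
  intro L _ _ N ω x hA k T hk hT hcon
  set i0 : Fin k := ⟨0, Nat.zero_lt_of_lt hk⟩ with hi0
  set i1 : Fin k := ⟨1, hk⟩ with hi1
  have h01 : i0 < i1 := by
    rw [hi0, hi1, Fin.lt_def]; exact Nat.zero_lt_one
  have hex : ∀ v, ∃ n, ω.Wt v n := fun v => H73.exists_wt hA.trdeg hA.fg ω v
  obtain ⟨P0, hP0⟩ := H98.surf_coord (T.valid i0)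
  have hO0 : IsOrd (T.R i0) P0.ord := hP0 ▸ H98.isOrd_ord P0
  have hC0 : T.Cur P0.ord := (h17 L k T _).2 (Or.inr ⟨i0, hO0⟩)
  by_cases hcase : ω.Wt P0.ord 0 ∧ Contracted x P0.ord
  swap
  · left
    refine hO1 L N ω x hA k T (Nat.zero_lt_of_lt hk) hT ?_
    intro v hv hw hc
    have h1 := hcon v hv hw hc
    rcases hTY L k T v hv with ⟨a, b⟩ | ⟨a, p, b, c, d, e⟩
    · have b0 := b i0
      have b1 := b i1
      have : (T.cl v).2 ⟨0, Nat.zero_lt_of_lt hk⟩ = (T.cl v).2 i0 := rfl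
      omega
    · by_cases hp : p = i0
      · exfalso
        rw [hp, ← hP0, LCY.isOrd_iff] at b
        exact hcase ⟨H48.wt_same b hw, contracted_same b hc⟩
      · have hlt : i0 < p := by
          rw [Fin.lt_def, hi0]
          rcases Nat.eq_zero_or_pos (p : ℕ) with h2 | h2
          · exact absurd (Fin.ext h2) hp
          · exact h2
        rw [a]
        exact (d i0 hlt).symm
  obtain ⟨hw0, hc0⟩ := hcase
  have hcon0 := hcon _ hC0 hw0 hc0
  have e1 : (T.cl P0.ord).1 = 0 := (h18 L k T i0 _ hO0).2.1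
  have e2 : (T.cl P0.ord).2 i0 = -1 := by
    show mul (T.R i0) P0.ord = -1
    unfold mul; rw [if_pos hO0]
  have e3 : (T.cl P0.ord).2 i1 = 1 := by
    have : (T.cl P0.ord).2 ⟨0, Nat.zero_lt_of_lt hk⟩ = -1 := e2
    rw [e1, this] at hcon0
    have : (T.cl P0.ord).2 ⟨1, hk⟩ = (T.cl P0.ord).2 i1 := rfl
    omega
  have ht1 : Through (T.R i1) P0.ord := by
    apply through_of_mul_pos
    have : mul (T.R i1) P0.ord = 1 := e3
    rw [this]; exact one_pos
  have hmem : T.R i1 ∈ surf T.S T.R 1 := T.valid i1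
  rw [surf, dif_pos (Nat.zero_lt_of_lt hk)] at hmem
  have hpl0 : T.R i0 ∈ plane T.S := T.valid i0
  have hnext : Next (T.R i0) (T.R i1) := by
    rcases hmem with h | h
    · exfalso
      exact h.2 (H98.sep_plane hpl0 h.1 (isOrd_centred hO0) ht1.1).symm
    · exact h
  obtain ⟨S, Q, V, hpl, hdeg, hQ, qx, qy, hV, vx, vy⟩ := normal_dir hPG T.S hpl0 hnext
  have sx := S.x_ne
  have sy := S.y_ne
  set T0 := reS T S hpl with hT0
  have hT0s : State ω x T0 := reS_state S hpl hdeg hT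
  have hbne : ω.br S.x S.y ≠ 0 := H62.br_ne ω S
  -- the boundary is a polynomial
  have hcurp : ∀ (g : ℂ[X][X]) (v : DVal L), IsAdic S g v → T0.Cur v := fun g v hg =>
    (h17 L k T0 v).2 (Or.inl (Or.inr ⟨g, hg⟩))
  obtain ⟨F, hF⟩ : ∃ F, ev S.x S.y F = ω.br S.x S.y := by
    refine H2.poly_of_int S fun p hp => Or.inr ?_
    obtain ⟨n, hn⟩ := hex (S.pval p hp)
    rw [wt_pval S hp (wtProp hA.trdeg hA.fg ω _ hn)]
    rcases hT0s.wt _ (hcurp p _ (H98.adic_pval S hp)) n hn with h | h <;> omega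
  have hFne : F ≠ 0 := by
    rintro rfl
    rw [map_zero] at hF
    exact hbne hF.symm
  -- the value at the first point
  have hOQ : IsOrd (T.R i0) Q.ord := hQ ▸ H98.isOrd_ord Q
  have hsame0 : P0.ord.Same Q.ord := by
    rw [← hQ] at hO0
    exact LCY.isOrd_iff.1 hO0
  have hv0 : Q.ord.v (ω.br S.x S.y) = -2 := by
    have h1 := ord_br hA Q (H48.wt_same hsame0 hw0)
    rw [br0 ω qx qy, Q.ord.map_neg (div_ne_zero hbne (pow_ne_zero 3 sy)),
      Q.ord.map_div hbne (pow_ne_zero 3 sy), Q.ord.map_pow sy] at h1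
    have h2 : Q.ord.v S.y = -1 := by
      have h3 := H62.ord_y Q
      rw [qy, Q.ord.map_inv sy] at h3
      linarith
    rw [h2] at h1
    push_cast at h1
    linarith
  -- the value at the second point
  have hOV : IsOrd (T.R i1) V.ord := hV ▸ H98.isOrd_ord V
  have hCV : T.Cur V.ord := (h17 L k T _).2 (Or.inr ⟨i1, hOV⟩)
  obtain ⟨n1, hn1⟩ := hex V.ord
  have hv1 : V.ord.v (ω.br S.x S.y) = -4 - n1 := by
    have h1 := ord_br hA V hn1
    rw [br1 ω vx vy, V.ord.map_neg (div_ne_zero hbne (mul_ne_zero sx (pow_ne_zero 2 sy))),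
      V.ord.map_div hbne (mul_ne_zero sx (pow_ne_zero 2 sy)),
      V.ord.map_mul _ _ sx (pow_ne_zero 2 sy), V.ord.map_pow sy] at h1
    have h2 : V.ord.v S.x = -1 := by
      have h3 := H62.ord_y V
      rw [vy, V.ord.map_inv sx] at h3
      linarith
    have h4 : V.ord.v S.y = -2 := by
      have h3 := H62.ord_x V
      rw [vx, V.ord.map_div sx sy, h2] at h3
      linarith
    rw [h2, h4] at h1
    push_cast at h1
    linarith
  have hn1' : n1 = 0 ∨ n1 = -1 := hT.wt _ hCV n1 hn1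
  rw [← hF] at hv0 hv1
  obtain ⟨b1, e0, he0, b2⟩ := ord0_ev qx qy hFne
  have b3 := ord1_ev vx vy hFne
  rw [hv0] at b1 b2
  rw [hv1] at b3
  have he0' : e0 = (0, 2) := by
    have := b3 e0 he0
    refine Prod.ext ?_ ?_
    · show e0.1 = 0
      omega
    · show e0.2 = 2
      omega
  rw [he0'] at he0
  have hn10 : n1 = 0 := by
    have := b3 (0, 2) he0
    simp only at this
    push_cast at this
    omega
  have hS : ∀ e, cf F e ≠ 0 → e.2 ≤ 2 ∧ e.1 + 2 * e.2 ≤ 4 := by
    intro e he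
    have c1 := b1 e he
    have c2 := b3 e he
    constructor <;> omega
  obtain ⟨hshape, hB, hD⟩ := shape hS
  obtain ⟨P', p1, p2⟩ := S.tor (-1) 0 (-2) 1 (by norm_num)
  have q1 : P'.x = S.x⁻¹ := by rw [p1]; simp
  have q2 : P'.y = S.y / S.x ^ 2 := by
    rw [p2, zpow_one, zpow_neg, div_eq_mul_inv, mul_comm]
    norm_cast
  right
  refine coneF hA S P' (cf F (0, 2)) (F.coeff 1) (F.coeff 0) he0 hB hD
    (by rw [← hshape, hF]) ?_ q1 q2 ?_
  · intro g v hg hplc hval
    have hadic := place_adic hg hplc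
    have hcur : T.Cur v := (reS_Cur T S hpl v).1 (hcurp g v hadic)
    obtain ⟨n, hn⟩ := hex v
    have hs : v.Same (S.pval g hg.prime) := H98.adic_same hadic (H98.adic_pval S hg.prime)
    have hn0 : n = 0 := by
      have h1 := wt_pval S hg.prime (wtProp hA.trdeg hA.fg ω _ (H48.wt_same hs hn))
      rw [← hs _ hbne, hval] at h1
      omega
    rw [hn0] at hn
    refine ⟨?_, hn⟩
    intro hcontr
    have h1 := hcon v hcur hn hcontr
    have h2 : (T.cl v).1 = tdeg g ∧ 1 ≤ tdeg g := by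
      have h3 := h8 L S v g hadic
      refine ⟨?_, h3.2.1⟩
      rw [← h3.1, hdeg]
      rfl
    rcases hTY L k T v hcur with ⟨a, b⟩ | ⟨a, -⟩
    swap
    · rw [h2.1] at a
      have := h2.2
      omega
    have b0 := b i0
    have b1' := b i1
    have r0 : (T.cl v).2 ⟨0, Nat.zero_lt_of_lt hk⟩ = (T.cl v).2 i0 := rfl
    have r1 : (T.cl v).2 ⟨1, hk⟩ = (T.cl v).2 i1 := rfl
    rw [r0, r1, h2.1] at h1
    rw [h2.1] at b0 b1'
    have m0 : mul (T.R i0) v = tdeg g := by
      show (T.cl v).2 i0 = _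
      omega
    have m1 : mul (T.R i1) v = tdeg g := by
      show (T.cl v).2 i1 = _
      omega
    have g1 : (1 : ℤ) ≤ tdeg g := by exact_mod_cast h2.2
    have t0 : Through (T.R i0) v := through_of_mul_pos (by omega)
    have t1 : Through (T.R i1) v := through_of_mul_pos (by omega)
    by_cases hh : Hor S.x v
    · rw [← hQ] at t0 m0
      have := mul_lt h6 h7 qx qy hadic hh t0
      omega
    · rw [← hV] at t1
      exact not_through_dir vy hadic hh t1
  · intro v hplc
    have hs : v.Same V.ord := place_cone q1 q2 vx vy hplc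
    have hs' := H98.same_symm hs
    have hw : ω.Wt v 0 := H48.wt_same hs' (hn10 ▸ hn1)
    refine ⟨?_, hw⟩
    intro hcontr
    have hO : IsOrd (T.R i1) v := H48.isOrd_same hs' hOV
    have h1 := hcon v (H48.cur_same hs' hCV) hw hcontr
    have h2 := h18 L k T i1 v hO
    have r0 : (T.cl v).2 ⟨0, Nat.zero_lt_of_lt hk⟩ = 0 := by
      show mul (T.R i0) v = 0
      unfold mul
      rw [if_neg, if_neg (h2.2.2.2.1 i0 h01)]
      intro h3
      exact h01.ne (h2.2.2.1 i0 h3)
    have r1 : (T.cl v).2 ⟨1, hk⟩ = -1 := by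
      show mul (T.R i1) v = -1
      unfold mul; rw [if_pos hO]
    have r2 : (T.cl v).1 = 0 := h2.2.1
    rw [r0, r1, r2] at h1
    norm_num at h1

end H11

end

end LCY
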